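import Mathlib

/-!
# Growth of powers of a matrix space: the twisted product argument

`Λ` is a space of `D × D` matrices over a field `K`, spanned by matrices fixed by an automorphism
`σ` of `K`, with `Λ ^ n₀ = ⊤` for some `n₀ ≥ 1`.  For `g ∈ Λ` let `Y 0 = 1`,
`Y (k + 1) = g * σ (Y k)`.  If all `Y k` are nonzero then `Λ ^ N = ⊤` as soon as
`r * D + m + (D - r) ≤ N + 1`, for suitable `r ≥ 1` and `m` with `m + r ≤ D`.
-/

open Matrix Module
open scoped Pointwise

namespace Pool.Agent.MPSIndex

section Ideal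

variable {K : Type*} [Field K] {D : ℕ}

/-- Taking the `a`-th row. -/
def rowMap (a : Fin D) : Matrix (Fin D) (Fin D) K →ₗ[K] (Fin D → K) where
  toFun M := M a
  map_add' _ _ := rfl
  map_smul' _ _ := rfl

/-- The span of all rows of the matrices in `Z`. -/
def rows (Z : Submodule K (Matrix (Fin D) (Fin D) K)) : Submodule K (Fin D → K) :=
  ⨆ a : Fin D, Z.map (rowMap a)

lemma row_mem_rows {Z : Submodule K (Matrix (Fin D) (Fin D) K)} {M : Matrix (Fin D) (Fin D) K}
    (hM : M ∈ Z) (a : Fin D) : M a ∈ rows Z :=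
  Submodule.mem_iSup_of_mem a ⟨M, hM, rfl⟩

lemma rows_mono {Z Z' : Submodule K (Matrix (Fin D) (Fin D) K)} (h : Z ≤ Z') :
    rows Z ≤ rows Z' :=
  iSup_mono fun _ => Submodule.map_mono h

/-- A left ideal consists of all the matrices whose rows lie in the row space. -/
lemma mem_of_rows {Z : Submodule K (Matrix (Fin D) (Fin D) K)}
    (hZ : ∀ (M : Matrix (Fin D) (Fin D) K), ∀ z ∈ Z, M * z ∈ Z)
    {M : Matrix (Fin D) (Fin D) K} (hM : ∀ a, M a ∈ rows Z) : M ∈ Z := by
  classical
  have key : ∀ (a : Fin D) (v : Fin D → K), v ∈ rows Z →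
      (Matrix.of fun i j => if i = a then v j else 0) ∈ Z := by
    intro a v hv
    unfold rows at hv
    induction hv using Submodule.iSup_induction' with
    | mem b v hv =>
      obtain ⟨z, hz, rfl⟩ := hv
      have := hZ (Matrix.single a b 1) z hz
      convert this using 1
      ext i j
      rw [Matrix.mul_apply]
      by_cases hi : i = a
      · subst hi
        simp [Matrix.single_apply]
        rfl
      · simp [hi, Ne.symm hi]
    | zero =>
      convert Z.zero_mem using 1
      ext i j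
      simp
    | add v w _ _ hv hw =>
      convert Z.add_mem hv hw using 1
      ext i j
      by_cases hi : i = a <;> simp [hi]
  have hsum : M = ∑ a, (Matrix.of fun i j => if i = a then M a j else 0) := by
    ext i j
    rw [Matrix.sum_apply]
    simp
  rw [hsum]
  exact Z.sum_mem fun a _ => key a _ (hM a)

/-- Dimension bound for spaces of matrices with rows in a given space. -/
lemma finrank_le_of_rows {Z : Submodule K (Matrix (Fin D) (Fin D) K)}
    {W : Submodule K (Fin D → K)} (h : ∀ M ∈ Z, ∀ a, M a ∈ W) :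
    finrank K Z ≤ D * finrank K W := by
  let f : Z →ₗ[K] (Fin D → W) :=
    { toFun := fun z a => ⟨z.1 a, h z.1 z.2 a⟩
      map_add' := fun x y => rfl
      map_smul' := fun c x => rfl }
  have hf : Function.Injective f := by
    intro x y hxy
    apply Subtype.ext
    ext a b
    have := congrFun hxy a
    have h2 := congrArg Subtype.val this
    exact congrFun h2 b
  have := LinearMap.finrank_le_finrank_of_injective hf
  simpa [Module.finrank_pi_fintype] using this

end Ideal

section Twist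

variable {K : Type*} [Field K] {D : ℕ}

/-- The twisted products `g s(g) s²(g) ⋯ s^{k-1}(g)`. -/
def tw (s : Matrix (Fin D) (Fin D) K → Matrix (Fin D) (Fin D) K)
    (g : Matrix (Fin D) (Fin D) K) : ℕ → Matrix (Fin D) (Fin D) K
  | 0 => 1
  | k + 1 => g * s (tw s g k)

lemma tw_succ' (s : Matrix (Fin D) (Fin D) K ≃+* Matrix (Fin D) (Fin D) K)
    (g : Matrix (Fin D) (Fin D) K) (k : ℕ) :
    tw s g (k + 1) = tw s g k * (s^[k]) g := by
  induction k with
  | zero => simp [tw]
  | succ k ih =>
    have h1 : tw s g (k + 2) = g * s (tw s g (k + 1)) := rfl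
    rw [h1, ih, map_mul, ← mul_assoc, Function.iterate_succ_apply', ← ih]
    rfl

/-- The column space. -/
abbrev cs (M : Matrix (Fin D) (Fin D) K) : Submodule K (Fin D → K) :=
  LinearMap.range (Matrix.mulVecLin M)

lemma cs_mul_le (M P : Matrix (Fin D) (Fin D) K) : cs (M * P) ≤ cs M := by
  rintro _ ⟨v, rfl⟩
  exact ⟨P *ᵥ v, by simp [Matrix.mulVec_mulVec]⟩

lemma exists_mul_of_cs_le {M P : Matrix (Fin D) (Fin D) K} (h : cs P ≤ cs M) :
    ∃ Z, P = M * Z := by
  classical
  have : ∀ j, ∃ z : Fin D → K, M *ᵥ z = P *ᵥ (Pi.single j 1) := by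
    intro j
    have : P *ᵥ (Pi.single j 1) ∈ cs M := h ⟨Pi.single j 1, rfl⟩
    obtain ⟨z, hz⟩ := this
    exact ⟨z, hz⟩
  choose z hz using this
  refine ⟨Matrix.of fun i j => z j i, ?_⟩
  ext i j
  have h1 := congrFun (hz j) i
  rw [Matrix.mulVec_single_one] at h1
  rw [Matrix.mul_apply]
  simp only [Matrix.of_apply]
  rw [Matrix.col_apply] at h1
  rw [← h1]
  rfl

lemma exists_stable (s : Matrix (Fin D) (Fin D) K ≃+* Matrix (Fin D) (Fin D) K)
    (g : Matrix (Fin D) (Fin D) K) :
    ∃ m, cs (tw s g (m + 1)) = cs (tw s g m) ∧ m + finrank K (cs (tw s g m)) ≤ D := by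
  by_contra hcon
  push Not at hcon
  have h : ∀ m, m + finrank K (cs (tw s g m)) ≤ D := by
    intro m
    induction m with
    | zero =>
      have := Submodule.finrank_le (cs (tw s g 0))
      simpa using this
    | succ m ih =>
      have hne : cs (tw s g (m + 1)) ≠ cs (tw s g m) := by
        intro heq
        have := hcon m heq
        omega
      have hle : cs (tw s g (m + 1)) ≤ cs (tw s g m) := by
        rw [tw_succ']
        exact cs_mul_le _ _
      have := Submodule.finrank_lt_finrank_of_lt (lt_of_le_of_ne hle hne)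
      omega
  have := h (D + 1)
  omega

end Twist

section Growth

variable {K : Type*} [Field K] {D : ℕ}

/-- Entrywise application of an automorphism, as a semilinear map. -/
def entSL (σ : K ≃+* K) : Matrix (Fin D) (Fin D) K →ₛₗ[(σ : K →+* K)] Matrix (Fin D) (Fin D) K where
  toFun M := M.map σ
  map_add' M P := by ext; simp
  map_smul' c M := by ext; simp

lemma entSL_apply (σ : K ≃+* K) (M : Matrix (Fin D) (Fin D) K) : entSL σ M = σ.mapMatrix M := rfl

lemma finrank_map_entSL (σ : K ≃+* K) (U : Submodule K (Matrix (Fin D) (Fin D) K)) :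
    finrank K (U.map (entSL σ)) = finrank K U := by
  have hinj : Function.Injective (entSL (D := D) σ) := by
    intro x y hxy
    exact σ.mapMatrix.injective hxy
  let e : U ≃+ U.map (entSL σ) :=
    { toFun := fun x => ⟨entSL σ x.1, ⟨x.1, x.2, rfl⟩⟩
      invFun := fun y => ⟨σ.mapMatrix.symm y.1, by
        obtain ⟨x, hx, hxy⟩ := y.2
        have : σ.mapMatrix.symm y.1 = x := by
          rw [← hxy, entSL_apply]
          exact RingEquiv.symm_apply_apply _ _
        rw [this]
        exact hx⟩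
      left_inv := fun x => Subtype.ext (by
        show σ.mapMatrix.symm (entSL σ x.1) = x.1
        rw [entSL_apply]
        exact RingEquiv.symm_apply_apply _ _)
      right_inv := fun y => Subtype.ext (by
        show entSL σ (σ.mapMatrix.symm y.1) = y.1
        rw [entSL_apply]
        exact RingEquiv.apply_symm_apply _ _)
      map_add' := fun x y => Subtype.ext (by
        show entSL σ (x.1 + y.1) = entSL σ x.1 + entSL σ y.1
        exact map_add _ _ _) }
  have := rank_eq_of_equiv_equiv (R := K) (R' := K) (M := U) (M₁ := U.map (entSL σ))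
    σ e σ.bijective (by
      intro r m
      apply Subtype.ext
      show entSL σ (r • m.1) = σ r • entSL σ m.1
      exact LinearMap.map_smulₛₗ _ _ _)
  rw [Module.finrank, Module.finrank, this]

/-- Right multiplication on products of subspaces. -/
lemma mul_span_mul (U : Submodule K (Matrix (Fin D) (Fin D) K)) (Y Z : Matrix (Fin D) (Fin D) K) :
    U * Submodule.span K {Y * Z} = (U * Submodule.span K {Y}).map (LinearMap.mulRight K Z) := by
  apply le_antisymm
  · rw [Submodule.mul_le]
    intro u hu x hx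
    rw [Submodule.mem_span_singleton] at hx
    obtain ⟨c, rfl⟩ := hx
    refine ⟨u * (c • Y), Submodule.mul_mem_mul hu (Submodule.smul_mem _ _
      (Submodule.mem_span_singleton_self Y)), ?_⟩
    simp [mul_assoc]
  · rw [Submodule.map_le_iff_le_comap, Submodule.mul_le]
    intro u hu x hx
    rw [Submodule.mem_span_singleton] at hx
    obtain ⟨c, rfl⟩ := hx
    rw [Submodule.mem_comap]
    have : LinearMap.mulRight K Z (u * (c • Y)) = u * (c • (Y * Z)) := by
      simp [mul_assoc]
    rw [this]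
    exact Submodule.mul_mem_mul hu (Submodule.smul_mem _ _
      (Submodule.mem_span_singleton_self _))

lemma finrank_mul_span_le (U : Submodule K (Matrix (Fin D) (Fin D) K)) (Y Z : Matrix (Fin D) (Fin D) K) :
    finrank K (U * Submodule.span K {Y * Z} : Submodule K (Matrix (Fin D) (Fin D) K)) ≤
      finrank K (U * Submodule.span K {Y} : Submodule K (Matrix (Fin D) (Fin D) K)) := by
  rw [mul_span_mul]
  exact Submodule.finrank_map_le _ _

/-- The hypotheses of the growth argument. -/
structure Setup (K : Type*) [Field K] (D : ℕ) where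
  /-- the automorphism -/
  σ : K ≃+* K
  /-- the fixed matrices -/
  B : Set (Matrix (Fin D) (Fin D) K)
  /-- the element of the span -/
  g : Matrix (Fin D) (Fin D) K
  fix : ∀ b ∈ B, σ.mapMatrix b = b
  hg : g ∈ Submodule.span K B
  n₀ : ℕ
  hn₀ : 1 ≤ n₀
  prim : (Submodule.span K B) ^ n₀ = ⊤
  ne : ∀ k, tw σ.mapMatrix g k ≠ 0

namespace Setup

variable (S : Setup K D)

/-- The space `Λ`. -/
def L : Submodule K (Matrix (Fin D) (Fin D) K) := Submodule.span K S.B

/-- The twisted product. -/
def Y (k : ℕ) : Matrix (Fin D) (Fin D) K := tw S.σ.mapMatrix S.g k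

lemma top_succ {U : Submodule K (Matrix (Fin D) (Fin D) K)} {n : ℕ} (h : 1 ≤ n) (hU : U ^ n = ⊤) : U ^ (n + 1) = ⊤ := by
  have h1 : U * (⊤ : Submodule K (Matrix (Fin D) (Fin D) K)) = ⊤ := by
    rw [eq_top_iff]
    obtain ⟨k, rfl⟩ : ∃ k, n = k + 1 := ⟨n - 1, by omega⟩
    calc (⊤ : Submodule K (Matrix (Fin D) (Fin D) K)) = U ^ (k + 1) := hU.symm
      _ = U * U ^ k := pow_succ' U k
      _ ≤ U * ⊤ := mul_le_mul' le_rfl le_top
  rw [pow_succ', hU, h1]

lemma top_of_le {U : Submodule K (Matrix (Fin D) (Fin D) K)} {n : ℕ} (h : 1 ≤ n) (hU : U ^ n = ⊤) {k : ℕ} (hk : n ≤ k) :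
    U ^ k = ⊤ := by
  induction k, hk using Nat.le_induction with
  | base => exact hU
  | succ k hk ih => exact top_succ (by omega) ih

lemma L_top {n : ℕ} (hn : S.n₀ ≤ n) : S.L ^ n = ⊤ := top_of_le S.hn₀ S.prim hn

lemma fix_pow (n : ℕ) : ∀ b ∈ S.B ^ n, S.σ.mapMatrix b = b := by
  induction n with
  | zero =>
    intro b hb
    rw [pow_zero, Set.mem_one] at hb
    rw [hb, map_one]
  | succ n ih =>
    intro b hb
    rw [pow_succ] at hb
    obtain ⟨x, hx, y, hy, rfl⟩ := hb
    show S.σ.mapMatrix (x * y) = x * y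
    rw [map_mul, ih x hx, S.fix y hy]

lemma map_ent (n : ℕ) (X : Matrix (Fin D) (Fin D) K) :
    (S.L ^ n * Submodule.span K {X}).map (entSL S.σ) =
      S.L ^ n * Submodule.span K {S.σ.mapMatrix X} := by
  rw [L, Submodule.span_pow, Submodule.span_mul_span, Submodule.span_mul_span,
    Submodule.map_span]
  congr 1
  ext M
  constructor
  · rintro ⟨_, ⟨b, hb, x, hx, rfl⟩, rfl⟩
    rw [Set.mem_singleton_iff] at hx
    subst hx
    refine ⟨b, hb, _, Set.mem_singleton _, ?_⟩
    show b * S.σ.mapMatrix x = entSL S.σ (b * x)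
    rw [entSL_apply, map_mul, S.fix_pow n b hb]
  · rintro ⟨b, hb, x, hx, rfl⟩
    rw [Set.mem_singleton_iff] at hx
    subst hx
    refine ⟨b * X, ⟨b, hb, X, Set.mem_singleton _, rfl⟩, ?_⟩
    show entSL S.σ (b * X) = b * S.σ.mapMatrix X
    rw [entSL_apply, map_mul, S.fix_pow n b hb]

/-- the dimension of `Λ ^ n * Y m` -/
noncomputable def h (m n : ℕ) : ℕ := finrank K (S.L ^ n * Submodule.span K {S.Y m} : Submodule K (Matrix (Fin D) (Fin D) K))

lemma h_eq (m n : ℕ) :
    finrank K (S.L ^ n * Submodule.span K {S.σ.mapMatrix (S.Y m)} : Submodule K (Matrix (Fin D) (Fin D) K)) = S.h m n := by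
  rw [← S.map_ent, finrank_map_entSL]
  rfl

section

variable {m : ℕ} (hm : cs (S.Y (m + 1)) = cs (S.Y m))

include hm

lemma h_le (n : ℕ) :
    S.h m n ≤ finrank K (S.L ^ n * Submodule.span K {S.Y (m + 1)} : Submodule K (Matrix (Fin D) (Fin D) K)) := by
  obtain ⟨Z, hZ⟩ := exists_mul_of_cs_le hm.ge
  unfold h
  conv_lhs => rw [hZ]
  exact finrank_mul_span_le _ _ _

omit hm in
lemma le_h (n : ℕ) :
    finrank K (S.L ^ n * Submodule.span K {S.Y (m + 1)} : Submodule K (Matrix (Fin D) (Fin D) K)) ≤ S.h m n := by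
  have : S.Y (m + 1) = S.Y m * (S.σ.mapMatrix^[m]) S.g := tw_succ' _ _ _
  rw [this]
  exact finrank_mul_span_le _ _ _

omit hm in
lemma step_le (n : ℕ) : S.L ^ n * Submodule.span K {S.Y (m + 1)} ≤
    S.L ^ (n + 1) * Submodule.span K {S.σ.mapMatrix (S.Y m)} := by
  rw [pow_succ, mul_assoc]
  refine mul_le_mul' le_rfl ?_
  rw [Submodule.span_singleton_le_iff_mem]
  exact Submodule.mul_mem_mul S.hg (Submodule.mem_span_singleton_self _)

lemma h_mono (n : ℕ) : S.h m n ≤ S.h m (n + 1) := by
  calc S.h m n ≤ _ := S.h_le hm n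
    _ ≤ finrank K (S.L ^ (n + 1) * Submodule.span K {S.σ.mapMatrix (S.Y m)} : Submodule K (Matrix (Fin D) (Fin D) K)) :=
      Submodule.finrank_mono (S.step_le n)
    _ = S.h m (n + 1) := S.h_eq m (n + 1)

lemma h_stable {n : ℕ} (hn : S.h m (n + 1) ≤ S.h m n) (j : ℕ) :
    S.h m (n + 1 + j) ≤ S.h m (n + j) := by
  have heq : S.L ^ n * Submodule.span K {S.Y (m + 1)} =
      S.L ^ (n + 1) * Submodule.span K {S.σ.mapMatrix (S.Y m)} := by
    apply Submodule.eq_of_le_of_finrank_le (S.step_le n)
    rw [S.h_eq]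
    exact hn.trans (S.h_le hm n)
  have heq2 : S.L ^ (n + j) * Submodule.span K {S.Y (m + 1)} =
      S.L ^ (n + 1 + j) * Submodule.span K {S.σ.mapMatrix (S.Y m)} := by
    rw [add_comm n j, pow_add, mul_assoc, heq, ← mul_assoc, ← pow_add]
    congr 2
    omega
  rw [← S.h_eq m (n + 1 + j), ← heq2]
  exact S.le_h _

lemma h_const {n : ℕ} (hn : S.h m (n + 1) ≤ S.h m n) (j : ℕ) : S.h m (n + j) ≤ S.h m n := by
  induction j with
  | zero => simp
  | succ j ih =>
    have := S.h_stable hm hn j
    rw [show n + (j + 1) = n + 1 + j by omega]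
    exact this.trans ih

end

/-- The final value. -/
noncomputable def H (m : ℕ) : ℕ :=
  finrank K ((⊤ : Submodule K (Matrix (Fin D) (Fin D) K)) * Submodule.span K {S.Y m} : Submodule K (Matrix (Fin D) (Fin D) K))

lemma h_le_H (m n : ℕ) : S.h m n ≤ S.H m :=
  Submodule.finrank_mono (mul_le_mul' le_top le_rfl)

lemma h_zero (m : ℕ) : 1 ≤ S.h m 0 := by
  unfold h
  have h0 : S.Y m ≠ 0 := S.ne m
  rw [pow_zero, one_mul, finrank_span_singleton h0]

lemma h_big {m n : ℕ} (hn : S.n₀ ≤ n) : S.h m n = S.H m := by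
  unfold h H
  rw [S.L_top hn]

lemma h_lower {m : ℕ} (hm : cs (S.Y (m + 1)) = cs (S.Y m)) (n : ℕ) :
    min (n + 1) (S.H m) ≤ S.h m n := by
  induction n with
  | zero => exact (min_le_left _ _).trans (S.h_zero m)
  | succ n ih =>
    by_cases hn : S.h m (n + 1) ≤ S.h m n
    · have h1 := S.h_const hm hn (S.n₀)
      have h2 : S.h m (n + S.n₀) = S.H m := S.h_big (by omega)
      have h3 := S.h_mono hm n
      rw [h2] at h1
      exact (min_le_right _ _).trans (h1.trans h3)
    · rw [not_le] at hn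
      have : min (n + 1 + 1) (S.H m) ≤ min (n + 1) (S.H m) + 1 := by omega
      omega

lemma mul_eq_top_mul {m : ℕ} (hm : cs (S.Y (m + 1)) = cs (S.Y m)) {n : ℕ} (hn : S.H m ≤ n + 1) :
    S.L ^ n * Submodule.span K {S.Y m} = ⊤ * Submodule.span K {S.Y m} := by
  apply Submodule.eq_of_le_of_finrank_le (mul_le_mul' le_top le_rfl)
  have := S.h_lower hm n
  rw [min_eq_right hn] at this
  exact this

/-- The left ideals `⊤ * Y m * (1 + Λ + ⋯ + Λ ^ j)`. -/
def Zr (m : ℕ) : ℕ → Submodule K (Matrix (Fin D) (Fin D) K)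
  | 0 => ⊤ * Submodule.span K {S.Y m}
  | j + 1 => Zr m j ⊔ Zr m j * S.L

lemma Zr_left (m j : ℕ) : (⊤ : Submodule K (Matrix (Fin D) (Fin D) K)) * S.Zr m j ≤ S.Zr m j := by
  induction j with
  | zero =>
    show ⊤ * (⊤ * Submodule.span K {S.Y m}) ≤ ⊤ * Submodule.span K {S.Y m}
    rw [← mul_assoc]
    exact mul_le_mul' le_top le_rfl
  | succ j ih =>
    show ⊤ * (S.Zr m j ⊔ S.Zr m j * S.L) ≤ S.Zr m j ⊔ S.Zr m j * S.L
    rw [Submodule.mul_sup, ← mul_assoc]
    exact sup_le_sup ih (mul_le_mul' ih le_rfl)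

lemma Zr_left' (m j : ℕ) (M : Matrix (Fin D) (Fin D) K) {z : Matrix (Fin D) (Fin D) K} (hz : z ∈ S.Zr m j) : M * z ∈ S.Zr m j :=
  S.Zr_left m j (Submodule.mul_mem_mul Submodule.mem_top hz)

lemma Zr_le_succ (m j : ℕ) : S.Zr m j ≤ S.Zr m (j + 1) := le_sup_left

lemma Y_mem_Zr (m j : ℕ) : S.Y m ∈ S.Zr m j := by
  induction j with
  | zero =>
    have : (1 : Matrix (Fin D) (Fin D) K) * S.Y m ∈ (⊤ : Submodule K (Matrix (Fin D) (Fin D) K)) * Submodule.span K {S.Y m} :=
      Submodule.mul_mem_mul Submodule.mem_top (Submodule.mem_span_singleton_self _)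
    rwa [one_mul] at this
  | succ j ih => exact S.Zr_le_succ m j ih

lemma Zr_top_of_stable {m j : ℕ} (h : S.Zr m (j + 1) = S.Zr m j) : S.Zr m j = ⊤ := by
  have h1 : S.Zr m j * S.L ≤ S.Zr m j := by
    calc S.Zr m j * S.L ≤ S.Zr m (j + 1) := le_sup_right
      _ = S.Zr m j := h
  have h2 : ∀ n, S.Zr m j * S.L ^ n ≤ S.Zr m j := by
    intro n
    induction n with
    | zero => rw [pow_zero, mul_one]
    | succ n ih =>
      rw [pow_succ, ← mul_assoc]
      exact (mul_le_mul' ih le_rfl).trans h1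
  have h3 : S.Zr m j * ⊤ ≤ S.Zr m j := by
    have := h2 S.n₀
    rwa [S.L_top le_rfl] at this
  have hY : S.Y m ≠ 0 := S.ne m
  obtain ⟨a, b, hab⟩ : ∃ a b, S.Y m a b ≠ 0 := by
    by_contra hcon
    push Not at hcon
    exact hY (by ext a b; exact hcon a b)
  rw [eq_top_iff]
  rintro M -
  have hone : ∀ i k, Matrix.single i k (1 : K) ∈ S.Zr m j := by
    intro i k
    have h4 : Matrix.single i a ((S.Y m a b)⁻¹) * S.Y m * Matrix.single b k (1 : K) ∈
        S.Zr m j := by
      apply h3
      exact Submodule.mul_mem_mul (S.Zr_left' m j _ (S.Y_mem_Zr m j)) Submodule.mem_top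
    have h5 : Matrix.single i a ((S.Y m a b)⁻¹) * S.Y m * Matrix.single b k (1 : K) =
        Matrix.single i k (1 : K) := by
      rw [Matrix.single_mul_mul_single]
      rw [inv_mul_cancel₀ hab, one_mul]
    rwa [h5] at h4
  rw [Matrix.matrix_eq_sum_single M]
  refine Submodule.sum_mem _ fun i _ => Submodule.sum_mem _ fun k _ => ?_
  have : Matrix.single i k (M i k) = M i k • Matrix.single i k (1 : K) := by
    rw [Matrix.smul_single, smul_eq_mul, mul_one]
  rw [this]
  exact Submodule.smul_mem _ _ (hone i k)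

lemma rows_Zr (m j : ℕ) :
    min (finrank K (cs (S.Y m)) + j) D ≤ finrank K (rows (S.Zr m j)) := by
  induction j with
  | zero =>
    refine (min_le_left _ _).trans ?_
    have h1 : finrank K (cs (S.Y m)) = (S.Y m).rank := rfl
    rw [h1, Matrix.rank_eq_finrank_span_row, add_zero]
    apply Submodule.finrank_mono
    rw [Submodule.span_le]
    rintro _ ⟨a, rfl⟩
    exact row_mem_rows (S.Y_mem_Zr m 0) a
  | succ j ih =>
    by_cases hst : rows (S.Zr m (j + 1)) = rows (S.Zr m j)
    · have h1 : S.Zr m (j + 1) = S.Zr m j := by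
        apply le_antisymm _ (S.Zr_le_succ m j)
        intro M hM
        apply mem_of_rows (fun M z hz => S.Zr_left' m j M hz)
        intro a
        rw [← hst]
        exact row_mem_rows hM a
      have h2 := S.Zr_top_of_stable h1
      have h3 : rows (S.Zr m (j + 1)) = ⊤ := by
        rw [h1, h2, eq_top_iff]
        rintro v -
        rcases Nat.eq_zero_or_pos D with hD | hD
        · subst hD
          have hv : v = 0 := funext fun i => i.elim0
          rw [hv]
          exact Submodule.zero_mem _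
        · exact row_mem_rows (Z := ⊤) (M := Matrix.of fun _ => v) Submodule.mem_top ⟨0, hD⟩
      rw [h3, finrank_top]
      simp
    · have hlt : rows (S.Zr m j) < rows (S.Zr m (j + 1)) :=
        lt_of_le_of_ne (rows_mono (S.Zr_le_succ m j)) (Ne.symm hst)
      have := Submodule.finrank_lt_finrank_of_lt hlt
      omega

lemma Y_mem_pow (m : ℕ) : S.Y m ∈ S.L ^ m := by
  induction m with
  | zero =>
    rw [pow_zero]
    exact Submodule.one_le.mp le_rfl
  | succ m ih =>
    show S.g * S.σ.mapMatrix (S.Y m) ∈ S.L ^ (m + 1)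
    rw [pow_succ']
    apply Submodule.mul_mem_mul S.hg
    have : (S.L ^ m * Submodule.span K {(1 : Matrix (Fin D) (Fin D) K)}).map (entSL S.σ) = S.L ^ m := by
      rw [S.map_ent, map_one]
      have : Submodule.span K {(1 : Matrix (Fin D) (Fin D) K)} = 1 := Submodule.one_eq_span.symm
      rw [this, mul_one]
    rw [← this]
    refine ⟨S.Y m, ?_, rfl⟩
    have h1 : Submodule.span K {(1 : Matrix (Fin D) (Fin D) K)} = 1 := Submodule.one_eq_span.symm
    rw [h1, mul_one]
    exact ih

lemma H_le (m : ℕ) : S.H m ≤ D * finrank K (cs (S.Y m)) := by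
  have h1 : finrank K (cs (S.Y m)) = (S.Y m).rank := rfl
  rw [h1, Matrix.rank_eq_finrank_span_row]
  apply finrank_le_of_rows
  intro M hM a
  induction hM using Submodule.mul_induction_on' with
  | mem_mul_mem x _ y hy =>
    rw [Submodule.mem_span_singleton] at hy
    obtain ⟨c, rfl⟩ := hy
    have : (x * (c • S.Y m)) a = ∑ b, (c * x a b) • (S.Y m).row b := by
      ext k
      rw [Matrix.mul_apply, Finset.sum_apply]
      apply Finset.sum_congr rfl
      intro b _
      simp only [Matrix.smul_apply, smul_eq_mul, Pi.smul_apply, Matrix.row_apply]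
      ring
    rw [this]
    exact Submodule.sum_mem _ fun b _ => Submodule.smul_mem _ _
      (Submodule.subset_span ⟨b, rfl⟩)
  | add x _ y _ hx hy => exact Submodule.add_mem _ hx hy

lemma Zr_le_pow {m : ℕ} (hm : cs (S.Y (m + 1)) = cs (S.Y m)) (j : ℕ) {N : ℕ}
    (hN : S.H m + m + j ≤ N + 1) (hN2 : m + j ≤ N) : S.Zr m j ≤ S.L ^ N := by
  induction j generalizing N with
  | zero =>
    obtain ⟨n, rfl⟩ : ∃ n, N = n + m := ⟨N - m, by omega⟩
    show ⊤ * Submodule.span K {S.Y m} ≤ S.L ^ (n + m)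
    rw [← S.mul_eq_top_mul hm (n := n) (by omega), pow_add]
    refine mul_le_mul' le_rfl ?_
    rw [Submodule.span_singleton_le_iff_mem]
    exact S.Y_mem_pow m
  | succ j ih =>
    obtain ⟨N, rfl⟩ : ∃ n, N = n + 1 := ⟨N - 1, by omega⟩
    show S.Zr m j ⊔ S.Zr m j * S.L ≤ S.L ^ (N + 1)
    apply sup_le
    · exact ih (by omega) (by omega)
    · rw [pow_succ]
      exact mul_le_mul' (ih (by omega) (by omega)) le_rfl

/-- **The growth theorem.** -/
theorem main : ∃ m r : ℕ, 1 ≤ r ∧ m + r ≤ D ∧ (m = 0 → IsUnit S.g) ∧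
    ∀ N, D * r + m + (D - r) ≤ N + 1 → S.L ^ N = ⊤ := by
  obtain ⟨m, hm, hmr⟩ := exists_stable S.σ.mapMatrix S.g
  change cs (S.Y (m + 1)) = cs (S.Y m) at hm
  change m + finrank K (cs (S.Y m)) ≤ D at hmr
  refine ⟨m, finrank K (cs (S.Y m)), ?_, hmr, ?_, ?_⟩
  · rw [Nat.one_le_iff_ne_zero]
    intro h0
    rw [Submodule.finrank_eq_zero, LinearMap.range_eq_bot] at h0
    have h1 : S.Y m = 0 := by
      ext i j
      have := congrFun (LinearMap.congr_fun h0 (Pi.single j 1)) i
      simpa using this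
    exact S.ne m h1
  · rintro rfl
    obtain ⟨Z, hZ⟩ := exists_mul_of_cs_le hm.ge
    have h1 : S.Y (0 + 1) = S.g := by simp [Y, tw]
    have h0 : S.Y 0 = 1 := rfl
    rw [h0, h1] at hZ
    exact (Matrix.isUnit_iff_isUnit_det _).mpr (by
      have := congrArg Matrix.det hZ
      rw [Matrix.det_one, Matrix.det_mul] at this
      exact IsUnit.of_mul_eq_one _ this.symm)
  · intro N hN
    have hr : finrank K (cs (S.Y m)) ≤ D := by omega
    have h1 := S.H_le m
    have h2 : 1 ≤ S.H m := (S.h_zero m).trans (S.h_le_H m 0)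
    have h3 := S.Zr_le_pow hm (D - finrank K (cs (S.Y m))) (N := N) (by omega) (by omega)
    have h4 : S.Zr m (D - finrank K (cs (S.Y m))) = ⊤ := by
      have h5 := S.rows_Zr m (D - finrank K (cs (S.Y m)))
      rw [show finrank K (cs (S.Y m)) + (D - finrank K (cs (S.Y m))) = D by omega,
        min_self] at h5
      have h6 : rows (S.Zr m (D - finrank K (cs (S.Y m)))) = ⊤ := by
        apply Submodule.eq_top_of_finrank_eq
        apply le_antisymm (Submodule.finrank_le _)
        simpa using h5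
      rw [eq_top_iff]
      rintro M -
      apply mem_of_rows (fun M z hz => S.Zr_left' m _ M hz)
      intro a
      rw [h6]
      exact Submodule.mem_top
    rw [h4] at h3
    exact top_le_iff.mp h3

end Setup

end Growth

end Pool.Agent.MPSIndex
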