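import Mathlib

/-!
# Matrix product states: normality and the injectivity index

Definitions for the problem on the largest injectivity index `N(D)` of normal matrix product
states of bond dimension `D`.
-/

namespace Pool.Agent.MPSIndex

/-- `S_L(A)`: the complex linear span of all products `A_{i_1} A_{i_2} ⋯ A_{i_L}` of `L` of the
matrices `A_1, …, A_d`. -/
def wordSpan {D d : ℕ} (A : Fin d → Matrix (Fin D) (Fin D) ℂ) (L : ℕ) :
    Submodule ℂ (Matrix (Fin D) (Fin D) ℂ) :=
  Submodule.span ℂ {M | ∃ i : Fin L → Fin d, M = (List.ofFn fun k => A (i k)).prod}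

/-- The tuple `A` is normal: `S_L(A) = M_D(ℂ)` for some `L ≥ 1`. -/
def IsNormal {D d : ℕ} (A : Fin d → Matrix (Fin D) (Fin D) ℂ) : Prop :=
  ∃ L : ℕ, 1 ≤ L ∧ wordSpan A L = ⊤

/-- The injectivity index `i(A)` of a normal tuple: the least `L ≥ 1` with `S_L(A) = M_D(ℂ)`. -/
noncomputable def injIndex {D d : ℕ} (A : Fin d → Matrix (Fin D) (Fin D) ℂ) : ℕ :=
  sInf {L : ℕ | 1 ≤ L ∧ wordSpan A L = ⊤}

/-- The set of the injectivity indices of all normal tuples of `D × D` matrices
(all physical dimensions `d ≥ 1`). -/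
def indexSet (D : ℕ) : Set ℕ :=
  {n | ∃ d : ℕ, 1 ≤ d ∧ ∃ A : Fin d → Matrix (Fin D) (Fin D) ℂ, IsNormal A ∧ injIndex A = n}

/-- `N(D)`: the largest injectivity index of a normal tuple of `D × D` matrices. -/
noncomputable def maxIndex (D : ℕ) : ℕ := sSup (indexSet D)

end Pool.Agent.MPSIndex
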