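import Mathlib

/-!
# The injectivity index of a matrix space containing an invertible matrix

`A` is a subspace of `End V` containing a unit `b`, over an algebraically closed field.
`N A k u = {X ∈ A ^ k : X u = 0}`.  Key lemma: if `A ^ (k + 1) ≠ ⊤` then for every `u ≠ 0` there is
`w ≠ 0` with `dim N A (k + 1) w > dim N A k u`.  Hence `A ^ k ≠ ⊤` implies `k ≤ n² - n`.
-/

open Module

namespace Pool.Agent.MPSIndex.Inv

section lin

variable {K M N : Type*} [Field K] [AddCommGroup M] [Module K M] [AddCommGroup N] [Module K N]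
  [FiniteDimensional K M]

lemma finrank_map_add (f : M →ₗ[K] N) (S : Submodule K M) :
    finrank K (S.map f) + finrank K (S ⊓ LinearMap.ker f : Submodule K M) = finrank K S := by
  have h := LinearMap.finrank_range_add_finrank_ker (f.domRestrict S)
  rw [LinearMap.range_domRestrict] at h
  have h2 : finrank K (LinearMap.ker (f.domRestrict S)) =
      finrank K (S ⊓ LinearMap.ker f : Submodule K M) := by
    have h3 : LinearMap.ker (f.domRestrict S) = (LinearMap.ker f).comap S.subtype := by
      ext x; simp
    rw [h3, ← Submodule.map_comap_subtype S (LinearMap.ker f), Submodule.finrank_map_subtype_eq]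
  rw [h2] at h
  exact h

lemma finrank_le_of_inj [FiniteDimensional K N] (f : M →ₗ[K] N) {S : Submodule K M}
    {T : Submodule K N} (hf : ∀ x ∈ S, f x = 0 → x = 0) (h : ∀ x ∈ S, f x ∈ T) :
    finrank K S ≤ finrank K T := by
  have h1 := finrank_map_add f S
  have h2 : (S ⊓ LinearMap.ker f : Submodule K M) = ⊥ := by
    rw [Submodule.eq_bot_iff]
    rintro x ⟨hx, hx2⟩
    exact hf x hx hx2
  rw [h2, finrank_bot, add_zero] at h1
  rw [← h1]
  apply Submodule.finrank_mono
  rintro _ ⟨x, hx, rfl⟩
  exact h x hx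

/-- `dim {x ∈ S : f x ∈ S} + dim (S + f S) = 2 dim S`. -/
lemma finrank_pair (f : M →ₗ[K] M) (S : Submodule K M) :
    finrank K (S ⊓ S.comap f : Submodule K M) + finrank K (S ⊔ S.map f : Submodule K M) =
      2 * finrank K S := by
  have h1 := finrank_map_add f S
  have h2 := finrank_map_add f (S ⊓ S.comap f)
  have h3 : (S ⊓ S.comap f).map f = S ⊓ S.map f := by
    ext y
    constructor
    · rintro ⟨x, ⟨hx, hx2⟩, rfl⟩
      exact ⟨hx2, ⟨x, hx, rfl⟩⟩
    · rintro ⟨hy, ⟨x, hx, rfl⟩⟩
      exact ⟨x, ⟨hx, hy⟩, rfl⟩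
  have h4 : (S ⊓ S.comap f) ⊓ LinearMap.ker f = S ⊓ LinearMap.ker f := by
    ext x
    constructor
    · rintro ⟨⟨hx, -⟩, hx2⟩
      exact ⟨hx, hx2⟩
    · rintro ⟨hx, hx2⟩
      refine ⟨⟨hx, ?_⟩, hx2⟩
      show f x ∈ S
      rw [LinearMap.mem_ker.mp hx2]
      exact S.zero_mem
  rw [h3, h4] at h2
  have h5 := Submodule.finrank_sup_add_finrank_inf_eq S (S.map f)
  omega

/-- The dimension of `U × U`. -/
lemma finrank_prod_self (U : Submodule K M) :
    finrank K (U.prod U) = finrank K U + finrank K U := by
  rw [← Module.finrank_prod]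
  exact LinearEquiv.finrank_eq
    { toFun := fun x => (⟨x.1.1, x.2.1⟩, ⟨x.1.2, x.2.2⟩)
      invFun := fun y => ⟨(y.1.1, y.2.1), ⟨y.1.2, y.2.2⟩⟩
      map_add' := fun _ _ => rfl
      map_smul' := fun _ _ => rfl
      left_inv := fun _ => rfl
      right_inv := fun _ => rfl }

end lin

variable {K V : Type*} [Field K] [AddCommGroup V] [Module K V]

/-- Evaluation at `u`. -/
def ev (u : V) : End K V →ₗ[K] V := LinearMap.applyₗ u

@[simp] lemma ev_apply (u : V) (X : End K V) : ev u X = X u := rfl

/-- The elements of `A ^ k` killing `u`. -/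
def N (A : Submodule K (End K V)) (k : ℕ) (u : V) : Submodule K (End K V) :=
  A ^ k ⊓ LinearMap.ker (ev u)

lemma mem_N {A : Submodule K (End K V)} {k : ℕ} {u : V} {X : End K V} :
    X ∈ N A k u ↔ X ∈ A ^ k ∧ X u = 0 := Iff.rfl

/-- The operators killing a subspace. -/
def kill (E : Submodule K V) : Submodule K (End K V) where
  carrier := {X | ∀ e ∈ E, X e = 0}
  add_mem' := fun {X Y} hX hY e he => by
    rw [LinearMap.add_apply, hX e he, hY e he, add_zero]
  zero_mem' := fun e _ => rfl
  smul_mem' := fun c X hX e he => by rw [LinearMap.smul_apply, hX e he, smul_zero]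

lemma stable_top {A : Submodule K (End K V)} {b : (End K V)ˣ} (hb : (b : End K V) ∈ A)
    {m L : ℕ} (h : ∀ X ∈ A ^ (m + 1), X * (↑b⁻¹ : End K V) ∈ A ^ m) (hL : A ^ L = ⊤) :
    A ^ m = ⊤ := by
  have h1 : ∀ i, ∀ X ∈ A ^ (m + i), X * (↑b⁻¹ : End K V) ^ i ∈ A ^ m := by
    intro i
    induction i with
    | zero => intro X hX; simpa using hX
    | succ i ih =>
      intro X hX
      rw [show m + (i + 1) = (m + i) + 1 by ring, pow_succ'] at hX
      rw [pow_succ, ← mul_assoc]
      apply h
      rw [pow_succ']
      induction hX using Submodule.mul_induction_on' with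
      | mem_mul_mem a ha Y hY =>
        rw [mul_assoc]
        exact Submodule.mul_mem_mul ha (ih Y hY)
      | add x _ y _ hx hy =>
        rw [add_mul]
        exact Submodule.add_mem _ hx hy
  have h2 : A ^ (m + L) = ⊤ := by
    rw [eq_top_iff]
    rintro X -
    have h3 : X = (b : End K V) ^ m * ((↑b⁻¹ : End K V) ^ m * X) := by
      rw [← mul_assoc, ← Units.val_pow_eq_pow_val, ← Units.val_pow_eq_pow_val, inv_pow,
        Units.mul_inv, one_mul]
    rw [h3, pow_add]
    apply Submodule.mul_mem_mul
    · exact Submodule.pow_mem_pow A hb m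
    · rw [hL]; trivial
  rw [eq_top_iff]
  rintro X -
  have h3 := h1 L (X * (b : End K V) ^ L) (by rw [h2]; trivial)
  rwa [mul_assoc, ← Units.val_pow_eq_pow_val, ← Units.val_pow_eq_pow_val, inv_pow,
    Units.mul_inv, mul_one] at h3

/-- A nonzero invariant subspace contains an eigenvector. -/
lemma exists_eigvec [FiniteDimensional K V] [IsAlgClosed K] (g : End K V) (F : Submodule K V)
    (hF : ∀ x ∈ F, g x ∈ F) (hne : ∃ x ∈ F, x ≠ 0) :
    ∃ (c : K), ∃ w ∈ F, w ≠ 0 ∧ g w = c • w := by
  obtain ⟨x, hx, hx0⟩ := hne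
  have : Nontrivial F := ⟨⟨⟨x, hx⟩, 0, fun h => hx0 (congrArg Subtype.val h)⟩⟩
  obtain ⟨c, hc⟩ := Module.End.exists_eigenvalue (g.restrict hF)
  obtain ⟨w, hw⟩ := hc.exists_hasEigenvector
  refine ⟨c, w, w.2, fun h => hw.2 (Subtype.ext h), ?_⟩
  have := hw.apply_eq_smul
  exact congrArg Subtype.val this

section key

variable [FiniteDimensional K V] [IsAlgClosed K]

theorem key {A : Submodule K (End K V)} {b : (End K V)ˣ} (hb : (b : End K V) ∈ A) {L : ℕ}
    (hL : A ^ L = ⊤) (k : ℕ) (hk : A ^ (k + 1) ≠ ⊤) (u : V) (hu : u ≠ 0) :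
    ∃ w : V, w ≠ 0 ∧ finrank K (N A k u) < finrank K (N A (k + 1) w) := by
  by_contra hcon
  push Not at hcon
  have hbb : (↑b⁻¹ : End K V) * (b : End K V) = 1 := Units.inv_mul b
  have hbb' : (b : End K V) * (↑b⁻¹ : End K V) = 1 := Units.mul_inv b
  have hbv : ∀ v : V, (b : End K V) ((↑b⁻¹ : End K V) v) = v := fun v => by
    rw [← Module.End.mul_apply, hbb', Module.End.one_apply]
  set μ := finrank K (N A k u) with hμ
  -- right multiplication by `b`
  let rb : End K V →ₗ[K] End K V := LinearMap.mulRight K (b : End K V)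
  have hrb : ∀ X, rb X = X * (b : End K V) := fun X => rfl
  set P : Submodule K (End K V) := (A ^ (k + 1)).comap rb with hP
  have memP : ∀ X, X ∈ P ↔ X * (b : End K V) ∈ A ^ (k + 1) := fun X => Iff.rfl
  have F1 : A ^ k ≤ P := by
    intro X hX
    rw [memP, pow_succ]
    exact Submodule.mul_mem_mul hX hb
  have F2 : ∀ X ∈ A ^ k, ∀ a ∈ A, X * (a * (↑b⁻¹ : End K V)) ∈ P := by
    intro X hX a ha
    rw [memP, mul_assoc, mul_assoc, hbb, mul_one, pow_succ]
    exact Submodule.mul_mem_mul hX ha
  have F3 : finrank K P = finrank K (A ^ (k + 1) : Submodule K (End K V)) := by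
    apply le_antisymm
    · apply finrank_le_of_inj rb
      · intro x _ hx
        rw [hrb] at hx
        have := congrArg (· * (↑b⁻¹ : End K V)) hx
        simpa [mul_assoc, hbb'] using this
      · intro x hx; exact hx
    · apply finrank_le_of_inj (LinearMap.mulRight K (↑b⁻¹ : End K V))
      · intro x _ hx
        rw [LinearMap.mulRight_apply] at hx
        have := congrArg (· * (b : End K V)) hx
        simpa [mul_assoc, hbb] using this
      · intro x hx
        rw [LinearMap.mulRight_apply, memP, mul_assoc, hbb, mul_one]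
        exact hx
  have F4 : ∀ w : V, w ≠ 0 → finrank K (P ⊓ LinearMap.ker (ev w) : Submodule K (End K V)) ≤ μ := by
    intro w hw
    have hw' : (↑b⁻¹ : End K V) w ≠ 0 := by
      intro h
      apply hw
      have : (b : End K V) ((↑b⁻¹ : End K V) w) = 0 := by rw [h, map_zero]
      rwa [← Module.End.mul_apply, hbb', Module.End.one_apply] at this
    refine le_trans ?_ (hcon _ hw')
    apply finrank_le_of_inj rb
    · intro x _ hx
      rw [hrb] at hx
      have := congrArg (· * (↑b⁻¹ : End K V)) hx
      simpa [mul_assoc, hbb'] using this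
    · rintro x ⟨hx, hx2⟩
      rw [mem_N]
      refine ⟨hx, ?_⟩
      rw [hrb, Module.End.mul_apply, hbv]
      exact hx2
  have F5 : N A k u = P ⊓ LinearMap.ker (ev u) := by
    apply Submodule.eq_of_le_of_finrank_le
    · rintro X ⟨hX, hX2⟩
      exact ⟨F1 hX, hX2⟩
    · exact F4 u hu
  -- `N (k+1) u = b N k u`
  have F6a : (N A k u).map (LinearMap.mulLeft K (b : End K V)) = N A (k + 1) u := by
    apply Submodule.eq_of_le_of_finrank_le
    · rintro _ ⟨X, ⟨hX, hX2⟩, rfl⟩
      rw [LinearMap.mulLeft_apply, mem_N]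
      refine ⟨?_, ?_⟩
      · rw [pow_succ']
        exact Submodule.mul_mem_mul hb hX
      · rw [Module.End.mul_apply]
        have : X u = 0 := hX2
        rw [this, map_zero]
    · refine le_trans (hcon u hu) ?_
      apply finrank_le_of_inj (LinearMap.mulLeft K (b : End K V))
      · intro x _ hx
        rw [LinearMap.mulLeft_apply] at hx
        have := congrArg ((↑b⁻¹ : End K V) * ·) hx
        simpa [← mul_assoc, hbb] using this
      · intro x hx
        exact ⟨x, hx, rfl⟩
  have F6 : ∀ a ∈ A, ∀ X ∈ N A k u, (↑b⁻¹ : End K V) * (a * X) ∈ N A k u := by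
    intro a ha X hX
    have h1 : a * X ∈ N A (k + 1) u := by
      rw [mem_N] at hX ⊢
      refine ⟨?_, ?_⟩
      · rw [pow_succ']
        exact Submodule.mul_mem_mul ha hX.1
      · rw [Module.End.mul_apply, hX.2, map_zero]
    rw [← F6a] at h1
    obtain ⟨Y, hY, hY2⟩ := h1
    rw [← hY2, LinearMap.mulLeft_apply, ← mul_assoc, hbb, one_mul]
    exact hY
  have F6b : finrank K (N A (k + 1) u) = μ := by
    apply le_antisymm (hcon u hu)
    rw [← F6a]
    apply finrank_le_of_inj (LinearMap.mulLeft K (b : End K V))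
    · intro x _ hx
      rw [LinearMap.mulLeft_apply] at hx
      have := congrArg ((↑b⁻¹ : End K V) * ·) hx
      simpa [← mul_assoc, hbb] using this
    · intro x hx
      exact ⟨x, hx, rfl⟩
  have F7a := finrank_map_add (ev u) P
  rw [← F5, F3, ← hμ] at F7a
  have F7b := finrank_map_add (ev u) (A ^ (k + 1) : Submodule K (End K V))
  have F7c := finrank_map_add (ev u) (A ^ k : Submodule K (End K V))
  change _ + finrank K (N A (k + 1) u) = _ at F7b
  change _ + finrank K (N A k u) = _ at F7c
  rw [F6b] at F7b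
  rw [← hμ] at F7c
  set c1 := finrank K (A ^ (k + 1) : Submodule K (End K V)) with hc1
  set c0 := finrank K (A ^ k : Submodule K (End K V)) with hc0
  -- some `a₀ b⁻¹ u` is not a multiple of `u`
  have F8 : ∃ a₀ ∈ A, ∀ c : K, (a₀ * (↑b⁻¹ : End K V)) u ≠ c • u := by
    by_contra hno
    push Not at hno
    have h1 : P.map (ev u) ≤ (A ^ k : Submodule K (End K V)).map (ev u) := by
      rintro _ ⟨Y, hY, rfl⟩
      have h2 : ∀ Z ∈ A ^ k * A, Z ((↑b⁻¹ : End K V) u) ∈
          (A ^ k : Submodule K (End K V)).map (ev u) := by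
        intro Z hZ
        induction hZ using Submodule.mul_induction_on' with
        | mem_mul_mem X hX a ha =>
          obtain ⟨c, hc⟩ := hno a ha
          rw [Module.End.mul_apply] at hc ⊢
          rw [hc, map_smul]
          exact Submodule.smul_mem _ _ ⟨X, hX, rfl⟩
        | add x _ y _ hx hy =>
          rw [LinearMap.add_apply]
          exact Submodule.add_mem _ hx hy
      have h3 : ev u Y = (Y * (b : End K V)) ((↑b⁻¹ : End K V) u) := by
        rw [Module.End.mul_apply, hbv]; rfl
      rw [h3]
      apply h2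
      rw [← pow_succ]
      exact hY
    have h2 := Submodule.finrank_mono h1
    have h3 : A ^ k = P := Submodule.eq_of_le_of_finrank_le F1 (by rw [F3]; omega)
    have h4 : A ^ k = ⊤ := by
      apply stable_top hb _ hL
      intro X hX
      rw [h3, memP, mul_assoc, hbb, mul_one]
      exact hX
    apply hk
    rw [h4] at h3
    rw [eq_top_iff]
    rintro X -
    have h5 : X * (↑b⁻¹ : End K V) ∈ P := by rw [← h3]; trivial
    rwa [memP, mul_assoc, hbb, mul_one] at h5
  -- the main step
  have F9 : ∀ a ∈ A, (∀ c : K, (a * (↑b⁻¹ : End K V)) u ≠ c • u) →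
      ∀ Z ∈ A ^ (k + 1), Z * (a * (↑b⁻¹ : End K V)) ∈ A ^ (k + 1) := by
    intro a ha hau
    set g : End K V := a * (↑b⁻¹ : End K V) with hg
    set E : Submodule K V := Submodule.span K (Set.range fun i : ℕ => (g ^ i) u) with hE
    have huE : u ∈ E := Submodule.subset_span ⟨0, by simp⟩
    have hgE : ∀ x ∈ E, g x ∈ E := by
      intro x hx
      induction hx using Submodule.span_induction with
      | mem x hx =>
        obtain ⟨i, rfl⟩ := hx
        refine Submodule.subset_span ⟨i + 1, ?_⟩
        simp only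
        rw [pow_succ', Module.End.mul_apply]
      | zero => rw [map_zero]; exact E.zero_mem
      | add x y _ _ hx hy => rw [map_add]; exact E.add_mem hx hy
      | smul c x _ hx => rw [map_smul]; exact E.smul_mem c hx
    -- an operator killing `u` and `(g - c) E` kills `E`
    have hkillE : ∀ (c : K) (X : End K V), X u = 0 → (∀ e ∈ E, X (g e - c • e) = 0) →
        ∀ e ∈ E, X e = 0 := by
      intro c X hXu hX e he
      have h1 : ∀ i : ℕ, X ((g ^ i) u) = 0 := by
        intro i
        induction i with
        | zero => simpa using hXu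
        | succ i ih =>
          have h2 := hX ((g ^ i) u) (Submodule.subset_span ⟨i, rfl⟩)
          rw [map_sub, map_smul, ih, smul_zero, sub_zero] at h2
          rwa [pow_succ', Module.End.mul_apply]
      induction he using Submodule.span_induction with
      | mem x hx => obtain ⟨i, rfl⟩ := hx; exact h1 i
      | zero => exact map_zero X
      | add x y _ _ hx hy => rw [map_add, hx, hy, add_zero]
      | smul c x _ hx => rw [map_smul, hx, smul_zero]
    set X0 : Submodule K (End K V) := N A k u ⊓ kill E with hX0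
    have C1 : ∀ (c : K) (w : V), w ∈ E → w ≠ 0 → g w = c • w → ∀ Y ∈ P, Y w = 0 →
        ∃ X ∈ N A k u, ∃ ξ ∈ X0, Y = X * (g - c • 1) + ξ := by
      intro c w hwE hw hgw Y hY hYw
      let f : End K V →ₗ[K] End K V := LinearMap.mulRight K (g - c • 1)
      have hf : ∀ X, f X = X * (g - c • 1) := fun X => rfl
      set T : Submodule K (End K V) := (N A k u).map f ⊔ X0 with hT
      have hTle : T ≤ P ⊓ LinearMap.ker (ev w) := by
        rw [hT, sup_le_iff]
        constructor
        · rintro _ ⟨X, hX, rfl⟩
          rw [hf]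
          refine ⟨?_, ?_⟩
          · rw [mul_sub, mul_smul_comm, mul_one]
            exact P.sub_mem (F2 X hX.1 a ha) (P.smul_mem c (F1 hX.1))
          · rw [SetLike.mem_coe, LinearMap.mem_ker, ev_apply, Module.End.mul_apply,
              LinearMap.sub_apply, LinearMap.smul_apply, Module.End.one_apply, hgw, sub_self,
              map_zero]
        · rintro X ⟨hX, hX2⟩
          exact ⟨F1 hX.1, hX2 w hwE⟩
      have hTdim : μ ≤ finrank K T := by
        have h1 := finrank_map_add (X0.mkQ ∘ₗ f) (N A k u)
        have h2 := finrank_map_add X0.mkQ T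
        have h3 : (N A k u ⊓ LinearMap.ker (X0.mkQ ∘ₗ f) : Submodule K (End K V)) ≤ X0 := by
          rintro X ⟨hX, hX2⟩
          refine ⟨hX, ?_⟩
          rw [SetLike.mem_coe, LinearMap.mem_ker, LinearMap.comp_apply, Submodule.mkQ_apply,
            Submodule.Quotient.mk_eq_zero] at hX2
          apply hkillE c X hX.2
          intro e he
          have := hX2.2 e he
          rw [hf, Module.End.mul_apply, LinearMap.sub_apply, LinearMap.smul_apply,
            Module.End.one_apply] at this
          exact this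
        have h4 : (T ⊓ LinearMap.ker X0.mkQ : Submodule K (End K V)) = X0 := by
          rw [Submodule.ker_mkQ, inf_eq_right]
          exact le_sup_right
        have h5 : (N A k u).map (X0.mkQ ∘ₗ f) ≤ T.map X0.mkQ := by
          rw [Submodule.map_comp]
          exact Submodule.map_mono le_sup_left
        have h6 := Submodule.finrank_mono h3
        have h7 := Submodule.finrank_mono h5
        rw [h4] at h2
        omega
      have hTeq : T = P ⊓ LinearMap.ker (ev w) :=
        Submodule.eq_of_le_of_finrank_le hTle ((F4 w hw).trans hTdim)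
      have hYT : Y ∈ T := by
        rw [hTeq]
        exact ⟨hY, hYw⟩
      rw [hT, Submodule.mem_sup] at hYT
      obtain ⟨_, ⟨X, hX, rfl⟩, ξ, hξ, h⟩ := hYT
      exact ⟨X, hX, ξ, hξ, h.symm⟩
    have C3 : ∀ X ∈ A ^ k, ∃ X1 ∈ N A k u, X u = X1 (g u) := by
      intro X hX
      obtain ⟨c, w0, hw0E, hw0, hgw0⟩ := exists_eigvec g E hgE ⟨u, huE, hu⟩
      obtain ⟨X', hX', ξ, hξ, h1⟩ := C1 c w0 hw0E hw0 hgw0 (X * (g - c • 1))
        (by
          rw [mul_sub, mul_smul_comm, mul_one]
          exact P.sub_mem (F2 X hX a ha) (P.smul_mem c (F1 hX)))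
        (by
          rw [Module.End.mul_apply, LinearMap.sub_apply,
            LinearMap.smul_apply, Module.End.one_apply, hgw0, sub_self, map_zero])
      have h2 : ∀ e ∈ E, (X - X') (g e - c • e) = 0 := by
        intro e he
        have h3 := congrArg (fun Y : End K V => Y e) h1
        simp only [Module.End.mul_apply, LinearMap.sub_apply, LinearMap.smul_apply,
          Module.End.one_apply, LinearMap.add_apply] at h3
        rw [hξ.2 e he, add_zero] at h3
        rw [LinearMap.sub_apply, h3, sub_self]
      let gc : End K V := g - c • 1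
      have hgc : ∀ x, gc x = g x - c • x := fun x => by
        show (g - c • (1 : End K V)) x = _
        rw [LinearMap.sub_apply, LinearMap.smul_apply, Module.End.one_apply]
      set H : Submodule K V := E.map gc with hH
      have hHE : ∀ x ∈ H, x ∈ E := by
        rintro _ ⟨e, he, rfl⟩
        rw [hgc]
        exact E.sub_mem (hgE e he) (E.smul_mem c he)
      have hgH : ∀ x ∈ H, g x ∈ H := by
        rintro _ ⟨e, he, rfl⟩
        refine ⟨g e, hgE e he, ?_⟩
        rw [hgc, hgc, map_sub, map_smul]
      have hHne : ∃ x ∈ H, x ≠ 0 := by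
        refine ⟨gc u, ⟨u, huE, rfl⟩, ?_⟩
        rw [hgc]
        intro h
        exact hau c (sub_eq_zero.mp h)
      obtain ⟨c', w', hw'H, hw', hgw'⟩ := exists_eigvec g H hgH hHne
      have h4 : (X - X') w' = 0 := by
        obtain ⟨e, he, rfl⟩ := hw'H
        rw [hgc]
        exact h2 e he
      obtain ⟨X1, hX1, ξ', hξ', h5⟩ := C1 c' w' (hHE _ hw'H) hw' hgw' (X - X')
        (F1 (Submodule.sub_mem _ hX hX'.1)) h4
      refine ⟨X1, hX1, ?_⟩
      have h6 := congrArg (fun Y : End K V => Y u) h5
      simp only [Module.End.mul_apply, LinearMap.sub_apply, LinearMap.smul_apply,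
          Module.End.one_apply, LinearMap.add_apply] at h6
      have h7 : X' u = 0 := hX'.2
      have h8 : X1 u = 0 := hX1.2
      rw [h7, hξ'.2 u huE, map_sub, map_smul, h8, smul_zero, sub_zero, sub_zero, add_zero] at h6
      exact h6
    -- `W = (N A k u) g u`
    set W : Submodule K V := (N A k u).map (ev (g u)) with hW
    have C4 : W = P.map (ev u) := by
      have h1 : W ≤ P.map (ev u) := by
        rintro _ ⟨X, hX, rfl⟩
        exact ⟨X * g, F2 X hX.1 a ha, rfl⟩
      have h2 : ∀ y ∈ (A ^ (k + 1) : Submodule K (End K V)).map (ev u),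
          (↑b⁻¹ : End K V) y ∈ W := by
        rintro _ ⟨Z, hZ, rfl⟩
        rw [SetLike.mem_coe, pow_succ'] at hZ
        induction hZ using Submodule.mul_induction_on' with
        | mem_mul_mem a' ha' X hX =>
          obtain ⟨X1, hX1, h3⟩ := C3 X hX
          rw [ev_apply, Module.End.mul_apply, h3]
          exact ⟨(↑b⁻¹ : End K V) * (a' * X1), F6 a' ha' X1 hX1, rfl⟩
        | add x _ y _ hx hy =>
          rw [map_add, map_add]
          exact W.add_mem hx hy
      have h3 : finrank K ((A ^ (k + 1) : Submodule K (End K V)).map (ev u)) ≤ finrank K W := by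
        apply finrank_le_of_inj (↑b⁻¹ : End K V)
        · intro x _ hx
          have : (b : End K V) ((↑b⁻¹ : End K V) x) = 0 := by rw [hx, map_zero]
          rwa [← Module.End.mul_apply, hbb', Module.End.one_apply] at this
        · exact h2
      apply Submodule.eq_of_le_of_finrank_le h1
      omega
    have C5 : P = N A k u ⊔ (N A k u).map (LinearMap.mulRight K g) := by
      apply le_antisymm
      · intro Y hY
        have h1 : ev u Y ∈ W := by
          rw [C4]
          exact ⟨Y, hY, rfl⟩
        obtain ⟨X1, hX1, h2⟩ := h1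
        rw [ev_apply, ev_apply] at h2
        have h3 : Y - X1 * g ∈ N A k u := by
          rw [F5]
          refine ⟨P.sub_mem hY (F2 X1 hX1.1 a ha), ?_⟩
          rw [SetLike.mem_coe, LinearMap.mem_ker, ev_apply, LinearMap.sub_apply,
            Module.End.mul_apply, h2, sub_self]
        have h4 : Y = (Y - X1 * g) + X1 * g := by abel
        rw [h4]
        exact Submodule.add_mem_sup h3 ⟨X1, hX1, rfl⟩
      · rw [sup_le_iff]
        constructor
        · intro X hX; exact F1 hX.1
        · rintro _ ⟨X, hX, rfl⟩; exact F2 X hX.1 a ha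
    have C5' : P = A ^ k ⊔ (A ^ k : Submodule K (End K V)).map (LinearMap.mulRight K g) := by
      apply le_antisymm
      · rw [C5, sup_le_iff]
        constructor
        · exact le_trans (fun X hX => hX.1) le_sup_left
        · exact le_trans (Submodule.map_mono (fun X hX => hX.1)) le_sup_right
      · rw [sup_le_iff]
        constructor
        · exact F1
        · rintro _ ⟨X, hX, rfl⟩; exact F2 X hX a ha
    set L1 : Submodule K (End K V) := N A k u ⊓ (N A k u).comap (LinearMap.mulRight K g) with hL1
    set A1 : Submodule K (End K V) :=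
      A ^ k ⊓ (A ^ k : Submodule K (End K V)).comap (LinearMap.mulRight K g) with hA1
    have D1 : finrank K L1 + c1 = 2 * μ := by
      have := finrank_pair (LinearMap.mulRight K g) (N A k u)
      rwa [← C5, F3, ← hL1, ← hμ] at this
    have D2 : finrank K A1 + c1 = 2 * c0 := by
      have := finrank_pair (LinearMap.mulRight K g) (A ^ k : Submodule K (End K V))
      rwa [← C5', F3, ← hA1, ← hc0] at this
    let ev2 : End K V →ₗ[K] V × V := (ev u).prod (ev (g u))
    have hev2 : ∀ X, ev2 X = (X u, X (g u)) := fun X => rfl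
    set U : Submodule K V := (A ^ k : Submodule K (End K V)).map (ev u) with hU
    have C7 : A1.map ev2 = U.prod U := by
      apply Submodule.eq_of_le_of_finrank_le
      · rintro _ ⟨X, ⟨hX, hX2⟩, rfl⟩
        rw [hev2]
        exact ⟨⟨X, hX, rfl⟩, ⟨X * g, hX2, rfl⟩⟩
      · have h1 := finrank_map_add ev2 A1
        have h2 : (A1 ⊓ LinearMap.ker ev2 : Submodule K (End K V)) ≤ L1 := by
          rintro X ⟨⟨hX, hX2⟩, hX3⟩
          rw [SetLike.mem_coe, LinearMap.mem_ker, hev2, Prod.mk_eq_zero] at hX3
          exact ⟨⟨hX, hX3.1⟩, ⟨hX2, hX3.2⟩⟩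
        have h3 := Submodule.finrank_mono h2
        have h4 : finrank K (U.prod U) = finrank K U + finrank K U := by
          exact finrank_prod_self U
        omega
    set AA : Submodule K (End K V) := A * A1 with hAA
    have C8a : AA ≤ A ^ (k + 1) := by
      rw [hAA, pow_succ']
      exact Submodule.mul_le.mpr fun m hm n hn => Submodule.mul_mem_mul hm hn.1
    set U' : Submodule K V := (A ^ (k + 1) : Submodule K (End K V)).map (ev u) with hU'
    have C8b : U'.prod U' ≤ AA.map ev2 := by
      have h1 : ∀ Z ∈ A ^ (k + 1), (Z u, (0 : V)) ∈ AA.map ev2 ∧ ((0 : V), Z u) ∈ AA.map ev2 := by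
        intro Z hZ
        rw [pow_succ'] at hZ
        induction hZ using Submodule.mul_induction_on' with
        | mem_mul_mem a' ha' X hX =>
          have h2 : (X u, (0 : V)) ∈ A1.map ev2 := by
            rw [C7]
            exact ⟨⟨X, hX, rfl⟩, U.zero_mem⟩
          have h3 : ((0 : V), X u) ∈ A1.map ev2 := by
            rw [C7]
            exact ⟨U.zero_mem, ⟨X, hX, rfl⟩⟩
          obtain ⟨Y, hY, hY2⟩ := h2
          obtain ⟨Y', hY', hY2'⟩ := h3
          rw [hev2, Prod.mk.injEq] at hY2 hY2'
          refine ⟨⟨a' * Y, Submodule.mul_mem_mul ha' hY, ?_⟩,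
            ⟨a' * Y', Submodule.mul_mem_mul ha' hY', ?_⟩⟩
          · show (a' (Y u), a' (Y (g u))) = (a' (X u), 0)
            rw [hY2.1, hY2.2, map_zero]
          · show (a' (Y' u), a' (Y' (g u))) = (0, a' (X u))
            rw [hY2'.1, hY2'.2, map_zero]
        | add x _ y _ hx hy =>
          rw [LinearMap.add_apply]
          constructor
          · have := Submodule.add_mem _ hx.1 hy.1
            simpa using this
          · have := Submodule.add_mem _ hx.2 hy.2
            simpa using this
      rintro ⟨x, y⟩ ⟨⟨Z, hZ, hx⟩, ⟨Z', hZ', hy⟩⟩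
      simp only [ev_apply] at hx hy
      have h2 := Submodule.add_mem _ (h1 Z hZ).1 (h1 Z' hZ').2
      rw [Prod.mk_add_mk, zero_add, add_zero, hx, hy] at h2
      exact h2
    have C8c : finrank K L1 ≤ finrank K (AA ⊓ LinearMap.ker ev2 : Submodule K (End K V)) := by
      apply finrank_le_of_inj (LinearMap.mulLeft K (b : End K V))
      · intro x _ hx
        rw [LinearMap.mulLeft_apply] at hx
        have := congrArg ((↑b⁻¹ : End K V) * ·) hx
        simpa [← mul_assoc, hbb] using this
      · rintro X ⟨hX, hX2⟩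
        rw [LinearMap.mulLeft_apply]
        refine ⟨Submodule.mul_mem_mul hb ⟨hX.1, hX2.1⟩, ?_⟩
        have h1 : X u = 0 := hX.2
        have h2 : X (g u) = 0 := hX2.2
        rw [SetLike.mem_coe, LinearMap.mem_ker]
        show ((b : End K V) (X u), (b : End K V) (X (g u))) = 0
        rw [h1, h2, map_zero]
        rfl
    have C8 : AA = A ^ (k + 1) := by
      apply Submodule.eq_of_le_of_finrank_le C8a
      have h1 := finrank_map_add ev2 AA
      have h2 := Submodule.finrank_mono C8b
      have h4 : finrank K (U'.prod U') = finrank K U' + finrank K U' := by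
        exact finrank_prod_self U'
      omega
    intro Z hZ
    rw [← C8] at hZ
    induction hZ using Submodule.mul_induction_on' with
    | mem_mul_mem a' ha' Y hY =>
      rw [mul_assoc, pow_succ']
      exact Submodule.mul_mem_mul ha' hY.2
    | add x _ y _ hx hy =>
      rw [add_mul]
      exact Submodule.add_mem _ hx hy
  -- conclusion
  obtain ⟨a₀, ha₀, hau₀⟩ := F8
  have F10 : ∀ a ∈ A, ∀ Z ∈ A ^ (k + 1), Z * (a * (↑b⁻¹ : End K V)) ∈ A ^ (k + 1) := by
    intro a ha Z hZ
    by_cases h : ∀ c : K, (a * (↑b⁻¹ : End K V)) u ≠ c • u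
    · exact F9 a ha h Z hZ
    · push Not at h
      obtain ⟨c, hc⟩ := h
      have h1 : ∀ c' : K, ((a + a₀) * (↑b⁻¹ : End K V)) u ≠ c' • u := by
        intro c' h2
        rw [add_mul, LinearMap.add_apply, hc] at h2
        apply hau₀ (c' - c)
        rw [sub_smul, ← h2, add_sub_cancel_left]
      have h3 := F9 (a + a₀) (A.add_mem ha ha₀) h1 Z hZ
      have h4 := F9 a₀ ha₀ hau₀ Z hZ
      have h5 := Submodule.sub_mem _ h3 h4
      rwa [add_mul, mul_add, add_sub_cancel_right] at h5
  apply hk
  apply stable_top hb _ hL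
  intro X hX
  rw [pow_succ] at hX
  induction hX using Submodule.mul_induction_on' with
  | mem_mul_mem Z hZ a ha =>
    rw [mul_assoc]
    exact F10 a ha Z hZ
  | add x _ y _ hx hy =>
    rw [add_mul]
    exact Submodule.add_mem _ hx hy

/-- If `A ^ k ≠ ⊤` there is `u ≠ 0` with `k ≤ dim N A k u`. -/
theorem exists_N [Nontrivial V] {A : Submodule K (End K V)} {b : (End K V)ˣ}
    (hb : (b : End K V) ∈ A) {L : ℕ} (hL : A ^ L = ⊤) (k : ℕ) (hk : A ^ k ≠ ⊤) :
    ∃ u : V, u ≠ 0 ∧ k ≤ finrank K (N A k u) := by
  induction k with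
  | zero =>
    obtain ⟨u, hu⟩ := exists_ne (0 : V)
    exact ⟨u, hu, Nat.zero_le _⟩
  | succ k ih =>
    have h1 : A ^ k ≠ ⊤ := by
      intro h
      apply hk
      rw [eq_top_iff]
      rintro X -
      have h2 : X = (b : End K V) * ((↑b⁻¹ : End K V) * X) := by
        rw [← mul_assoc, Units.mul_inv, one_mul]
      rw [h2, pow_succ', h]
      exact Submodule.mul_mem_mul hb trivial
    obtain ⟨u, hu, hu2⟩ := ih h1
    obtain ⟨w, hw, hw2⟩ := key hb hL k hk u hu
    exact ⟨w, hw, by omega⟩

/-- A subspace of `End V` containing a unit, some power of which is everything, satisfies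
`A ^ (n² - n + 1) = ⊤`, in the form: `A ^ k ≠ ⊤` implies `k + n ≤ n²`. -/
theorem bound [Nontrivial V] {A : Submodule K (End K V)} {b : (End K V)ˣ}
    (hb : (b : End K V) ∈ A) {L : ℕ} (hL : A ^ L = ⊤) (k : ℕ) (hk : A ^ k ≠ ⊤) :
    k + finrank K V ≤ finrank K V * finrank K V := by
  obtain ⟨u, hu, hu2⟩ := exists_N hb hL k hk
  have h1 : finrank K (N A k u) ≤ finrank K (LinearMap.ker (ev (K := K) u)) :=
    Submodule.finrank_mono inf_le_right
  have h2 := LinearMap.finrank_range_add_finrank_ker (ev (K := K) u)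
  have h3 : LinearMap.range (ev (K := K) u) = ⊤ := by
    rw [LinearMap.range_eq_top]
    intro v
    obtain ⟨f, hf⟩ := Module.Projective.exists_dual_eq_one K hu
    refine ⟨f.smulRight v, ?_⟩
    rw [ev_apply, LinearMap.smulRight_apply, hf, one_smul]
  rw [h3, finrank_top, Module.finrank_linearMap] at h2
  omega

end key

end Pool.Agent.MPSIndex.Inv
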