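import Pool.Agent.MPSIndex.Main
import Pool.Agent.MPSIndex.Invertible

/-!
# The exact value `N(D) = D² - D + 1`
-/

open Matrix Module

namespace Pool.Agent.MPSIndex

variable {D d : ℕ}

/-- The bound `i(A) ≤ D² - D + 1` if the span contains an invertible matrix. -/
theorem index_le_of_unit (hD : 1 ≤ D) {A : Fin d → Matrix (Fin D) (Fin D) ℂ}
    (h : IsNormal A) {M : Matrix (Fin D) (Fin D) ℂ} (hM : M ∈ Submodule.span ℂ (Set.range A))
    (hu : IsUnit M) : injIndex A ≤ D ^ 2 - D + 1 := by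
  obtain ⟨n₀, hn₀, h⟩ := h
  rw [wordSpan_eq] at h
  haveI : Nonempty (Fin D) := ⟨⟨0, hD⟩⟩
  let φ : Matrix (Fin D) (Fin D) ℂ ≃ₐ[ℂ] ((Fin D → ℂ) →ₗ[ℂ] (Fin D → ℂ)) :=
    Matrix.toLinAlgEquiv'
  set B : Submodule ℂ (End ℂ (Fin D → ℂ)) :=
    (Submodule.span ℂ (Set.range A)).map φ.toAlgHom.toLinearMap with hB
  have hpow : ∀ k, B ^ k = (Submodule.span ℂ (Set.range A) ^ k).map φ.toAlgHom.toLinearMap := by
    intro k
    rw [hB, Submodule.map_pow]
  have hsurj : Function.Surjective φ.toAlgHom.toLinearMap := φ.surjective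
  have hinj : Function.Injective φ.toAlgHom.toLinearMap := φ.injective
  have hBL : B ^ n₀ = ⊤ := by
    rw [hpow, h, Submodule.map_top, LinearMap.range_eq_top]
    exact hsurj
  obtain ⟨b, hb⟩ : ∃ b : (End ℂ (Fin D → ℂ))ˣ, (b : End ℂ (Fin D → ℂ)) = φ M :=
    ⟨(hu.map φ).unit, rfl⟩
  have hbB : (b : End ℂ (Fin D → ℂ)) ∈ B := by
    rw [hb]
    exact ⟨M, hM, rfl⟩
  apply injIndex_le (by omega)
  rw [wordSpan_eq]
  by_contra hne
  have h1 : B ^ (D ^ 2 - D + 1) ≠ ⊤ := by
    intro h2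
    apply hne
    rw [hpow] at h2
    rw [eq_top_iff]
    rintro X -
    have h3 : φ X ∈ (Submodule.span ℂ (Set.range A) ^ (D ^ 2 - D + 1)).map
        φ.toAlgHom.toLinearMap := by rw [h2]; trivial
    obtain ⟨Y, hY, hY2⟩ := h3
    have h4 : Y = X := hinj hY2
    rw [← h4]
    exact hY
  have h2 := Inv.bound hbB hBL _ h1
  have h3 : finrank ℂ (Fin D → ℂ) = D := by simp
  rw [h3] at h2
  have h5 : D * 1 ≤ D * D := Nat.mul_le_mul_left _ hD
  rw [pow_two] at h2
  omega

/-- The sharp upper bound for all normal tuples. -/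
theorem index_le_sharp (hD : 2 ≤ D) {A : Fin d → Matrix (Fin D) (Fin D) ℂ}
    (h : IsNormal A) : injIndex A ≤ D ^ 2 - D + 1 := by
  by_cases hu : ∃ M ∈ Submodule.span ℂ (Set.range A), IsUnit M
  · obtain ⟨M, hM, hMu⟩ := hu
    exact index_le_of_unit (by omega) h hM hMu
  · push Not at hu
    exact index_le_of_no_unit hD h hu

theorem isGreatest_sharp (hD : 1 ≤ D) : IsGreatest (indexSet D) (D ^ 2 - D + 1) := by
  rcases Nat.lt_or_ge 1 D with h2 | h1
  · refine ⟨⟨2, by norm_num, pair D, (pair_index h2).1, (pair_index h2).2⟩, ?_⟩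
    rintro n ⟨d, -, A, hA, rfl⟩
    exact index_le_sharp h2 hA
  · have h3 : D = 1 := le_antisymm h1 hD
    subst h3
    have hb : ∀ n ∈ indexSet 1, n ≤ 1 := by
      rintro n ⟨d, -, A, hA, rfl⟩
      have hA' := hA
      obtain ⟨n₀, hn₀, h⟩ := hA
      rw [wordSpan_eq] at h
      by_cases hu : ∃ M ∈ Submodule.span ℂ (Set.range A), IsUnit M
      · obtain ⟨M, hM, hMu⟩ := hu
        exact index_le_of_unit (by omega) hA' hM hMu
      · exfalso
        push Not at hu
        have h0 : Submodule.span ℂ (Set.range A) = ⊥ := by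
          rw [Submodule.eq_bot_iff]
          intro M hM
          by_contra hM0
          apply hu M hM
          rw [Matrix.isUnit_iff_isUnit_det, isUnit_iff_ne_zero]
          intro hdet
          apply hM0
          rw [Matrix.det_fin_one] at hdet
          ext i j
          rw [Subsingleton.elim i 0, Subsingleton.elim j 0, hdet]
          rfl
        obtain ⟨k, rfl⟩ : ∃ k, n₀ = k + 1 := ⟨n₀ - 1, by omega⟩
        rw [h0, pow_succ, Submodule.mul_bot] at h
        have h7 : (1 : Matrix (Fin 1) (Fin 1) ℂ) ∈ (⊥ : Submodule ℂ _) := by rw [h]; trivial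
        rw [Submodule.mem_bot] at h7
        exact one_ne_zero h7
    have h4 : maxIndex 1 ∈ indexSet 1 := by
      apply Nat.sSup_mem
      · by_contra hne
        rw [Set.not_nonempty_iff_eq_empty] at hne
        have h5 := maxIndex_one
        unfold maxIndex at h5
        rw [hne] at h5
        simp at h5
      · exact ⟨1, hb⟩
    rw [maxIndex_one] at h4
    exact ⟨h4, hb⟩

/-- `N(D) = D² - D + 1`. -/
theorem maxIndex_eq (hD : 1 ≤ D) : maxIndex D = D ^ 2 - D + 1 :=
  (isGreatest_sharp hD).csSup_eq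

end Pool.Agent.MPSIndex
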