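import Pool.Agent.MPSIndex.Abstract

/-!
# The generic element of a matrix space and base change

For a tuple `A` of complex matrices we apply the growth theorem to the fraction field of
`ℂ[t_{i,j} : i ∈ ℤ, j ∈ Fin d]` with the shift automorphism and the generic element
`∑ j, t_{0,j} A_j`, and descend to `ℂ`.
-/

open Matrix Module
open scoped Pointwise

namespace Pool.Agent.MPSIndex

section BaseChange

variable {F K : Type*} [Field F] [Field K] [Algebra F K] {D : ℕ}

/-- Entrywise base change. -/
noncomputable def bc (F K : Type*) [Field F] [Field K] [Algebra F K] (D : ℕ) :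
    Matrix (Fin D) (Fin D) F →+* Matrix (Fin D) (Fin D) K :=
  (algebraMap F K).mapMatrix

lemma bc_apply (M : Matrix (Fin D) (Fin D) F) (i j : Fin D) :
    bc F K D M i j = algebraMap F K (M i j) := rfl

lemma bc_mem_span {X : Set (Matrix (Fin D) (Fin D) F)} {M : Matrix (Fin D) (Fin D) F}
    (hM : M ∈ Submodule.span F X) : bc F K D M ∈ Submodule.span K (bc F K D '' X) := by
  induction hM using Submodule.span_induction with
  | mem x hx => exact Submodule.subset_span ⟨x, hx, rfl⟩
  | zero => rw [map_zero]; exact Submodule.zero_mem _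
  | add x y _ _ hx hy => rw [map_add]; exact Submodule.add_mem _ hx hy
  | smul c x _ hx =>
    have : bc F K D (c • x) = algebraMap F K c • bc F K D x := by
      ext i j
      rw [bc_apply]
      simp only [Matrix.smul_apply, smul_eq_mul, map_mul, bc_apply]
    rw [this]
    exact Submodule.smul_mem _ _ hx

lemma top_of_single {U : Submodule K (Matrix (Fin D) (Fin D) K)}
    (h : ∀ i j, Matrix.single i j (1 : K) ∈ U) : U = ⊤ := by
  rw [eq_top_iff]
  rintro M -
  rw [Matrix.matrix_eq_sum_single M]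
  refine Submodule.sum_mem _ fun i _ => Submodule.sum_mem _ fun k _ => ?_
  have : Matrix.single i k (M i k) = M i k • Matrix.single i k (1 : K) := by
    rw [Matrix.smul_single, smul_eq_mul, mul_one]
  rw [this]
  exact Submodule.smul_mem _ _ (h i k)

lemma bc_single (i j : Fin D) :
    bc F K D (Matrix.single i j (1 : F)) = Matrix.single i j (1 : K) := by
  ext a b
  rw [bc_apply, Matrix.single_apply, Matrix.single_apply]
  split_ifs <;> simp

/-- Base change up. -/
lemma span_pow_bc_top {B : Set (Matrix (Fin D) (Fin D) F)} {n : ℕ}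
    (h : Submodule.span F B ^ n = ⊤) : Submodule.span K (bc F K D '' B) ^ n = ⊤ := by
  rw [Submodule.span_pow] at h ⊢
  apply top_of_single
  intro i j
  have h1 : Matrix.single i j (1 : F) ∈ Submodule.span F (B ^ n) := by rw [h]; trivial
  have h2 := bc_mem_span (K := K) h1
  rw [bc_single, Set.image_pow] at h2
  exact h2

/-- Descent. -/
lemma span_pow_top_of_bc {B : Set (Matrix (Fin D) (Fin D) F)} {n : ℕ}
    (h : Submodule.span K (bc F K D '' B) ^ n = ⊤) : Submodule.span F B ^ n = ⊤ := by
  rw [Submodule.span_pow] at h ⊢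
  by_contra hne
  obtain ⟨φ, hφ, hle⟩ := Submodule.exists_le_ker_of_lt_top _ (lt_top_iff_ne_top.mpr hne)
  apply hφ
  let ψ : Matrix (Fin D) (Fin D) K →ₗ[K] K :=
    { toFun := fun M => ∑ i, ∑ j, M i j * algebraMap F K (φ (Matrix.single i j 1))
      map_add' := fun M P => by
        simp only [Matrix.add_apply, add_mul, Finset.sum_add_distrib]
      map_smul' := fun c M => by
        simp only [Matrix.smul_apply, smul_eq_mul, Finset.mul_sum, RingHom.id_apply, mul_assoc] }
  have hψ : ∀ M, ψ (bc F K D M) = algebraMap F K (φ M) := by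
    intro M
    conv_rhs => rw [Matrix.matrix_eq_sum_single M]
    simp only [map_sum]
    show ∑ i, ∑ j, bc F K D M i j * algebraMap F K (φ (Matrix.single i j 1)) = _
    refine Finset.sum_congr rfl fun i _ => Finset.sum_congr rfl fun j _ => ?_
    have : Matrix.single i j (M i j) = M i j • Matrix.single i j (1 : F) := by
      rw [Matrix.smul_single, smul_eq_mul, mul_one]
    rw [this, map_smul, smul_eq_mul, map_mul, bc_apply]
  have hker : Submodule.span K ((bc F K D '' B) ^ n) ≤ LinearMap.ker ψ := by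
    rw [Submodule.span_le]
    rw [← Set.image_pow]
    rintro _ ⟨M, hM, rfl⟩
    rw [SetLike.mem_coe, LinearMap.mem_ker, hψ]
    have : φ M = 0 := hle (Submodule.subset_span hM)
    rw [this, map_zero]
  rw [h, top_le_iff, LinearMap.ker_eq_top] at hker
  have h0 : ∀ i j, φ (Matrix.single i j 1) = 0 := by
    intro i j
    have h1 := hψ (Matrix.single i j 1)
    rw [hker] at h1
    have h2 : algebraMap F K (φ (Matrix.single i j 1)) = 0 := h1.symm
    exact (map_eq_zero _).mp h2
  apply LinearMap.ext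
  intro M
  rw [Matrix.matrix_eq_sum_single M]
  simp only [map_sum, LinearMap.zero_apply]
  have h3 : ∀ i j, φ (Matrix.single i j (M i j)) = 0 := by
    intro i j
    have : Matrix.single i j (M i j) = M i j • Matrix.single i j (1 : F) := by
      rw [Matrix.smul_single, smul_eq_mul, mul_one]
    rw [this, map_smul, h0, smul_zero]
  simp [h3]

end BaseChange

section Generic

variable {D d : ℕ}

/-- Polynomials in variables `t_{i,j}`, `i ∈ ℤ`, `j ∈ Fin d`. -/
abbrev PP (d : ℕ) : Type := MvPolynomial (ℤ × Fin d) ℂ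

/-- The fraction field. -/
abbrev KK (d : ℕ) : Type := FractionRing (PP d)

/-- The shift of variables. -/
noncomputable def shiftP (d : ℕ) : PP d ≃+* PP d :=
  (MvPolynomial.renameEquiv ℂ ((Equiv.addRight (1 : ℤ)).prodCongr (Equiv.refl (Fin d)))).toRingEquiv

/-- The shift automorphism. -/
noncomputable def shiftK (d : ℕ) : KK d ≃+* KK d :=
  IsFractionRing.ringEquivOfRingEquiv (shiftP d)

lemma shiftK_algebraMap (p : PP d) :
    shiftK d (algebraMap (PP d) (KK d) p) = algebraMap (PP d) (KK d) (shiftP d p) :=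
  IsFractionRing.ringEquivOfRingEquiv_algebraMap _ _

lemma shiftP_C (c : ℂ) : shiftP d (MvPolynomial.C c) = MvPolynomial.C c := by
  show MvPolynomial.rename _ (MvPolynomial.C c) = _
  rw [MvPolynomial.rename_C]

lemma algebraMap_eq (c : ℂ) :
    algebraMap ℂ (KK d) c = algebraMap (PP d) (KK d) (MvPolynomial.C c) := by
  rw [IsScalarTower.algebraMap_apply ℂ (PP d) (KK d)]
  rfl

lemma shiftK_C (c : ℂ) : shiftK d (algebraMap ℂ (KK d) c) = algebraMap ℂ (KK d) c := by
  rw [algebraMap_eq, shiftK_algebraMap, shiftP_C]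

/-- The generic matrix over the polynomial ring. -/
noncomputable def gP (A : Fin d → Matrix (Fin D) (Fin D) ℂ) : Matrix (Fin D) (Fin D) (PP d) :=
  ∑ j, (MvPolynomial.X ((0 : ℤ), j) : PP d) • (A j).map MvPolynomial.C

/-- Twisted products over the polynomial ring. -/
noncomputable def twP (A : Fin d → Matrix (Fin D) (Fin D) ℂ) : ℕ → Matrix (Fin D) (Fin D) (PP d)
  | 0 => 1
  | k + 1 => gP A * (shiftP d).mapMatrix (twP A k)

/-- The generic matrix. -/
noncomputable def gK (A : Fin d → Matrix (Fin D) (Fin D) ℂ) : Matrix (Fin D) (Fin D) (KK d) :=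
  (algebraMap (PP d) (KK d)).mapMatrix (gP A)

lemma gK_eq (A : Fin d → Matrix (Fin D) (Fin D) ℂ) :
    gK A = ∑ j, (algebraMap (PP d) (KK d) (MvPolynomial.X ((0 : ℤ), j))) •
      bc ℂ (KK d) D (A j) := by
  unfold gK gP
  rw [map_sum]
  refine Finset.sum_congr rfl fun j _ => ?_
  ext a b
  simp only [RingHom.mapMatrix_apply, Matrix.map_apply, Matrix.smul_apply, smul_eq_mul, map_mul,
    bc_apply, algebraMap_eq]

lemma tw_eq (A : Fin d → Matrix (Fin D) (Fin D) ℂ) (k : ℕ) :
    tw (shiftK d).mapMatrix (gK A) k = (algebraMap (PP d) (KK d)).mapMatrix (twP A k) := by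
  induction k with
  | zero => simp [tw, twP]
  | succ k ih =>
    show gK A * (shiftK d).mapMatrix (tw (shiftK d).mapMatrix (gK A) k) =
      (algebraMap (PP d) (KK d)).mapMatrix (gP A * (shiftP d).mapMatrix (twP A k))
    rw [ih, map_mul]
    congr 1
    ext a b
    exact shiftK_algebraMap _

/-- Evaluation of the variables `t_{i,j}` at `δ_{j, w (i + a)}`. -/
noncomputable def ev (w : ℤ → Fin d) (a : ℤ) : PP d →+* ℂ :=
  MvPolynomial.eval (fun ij => if ij.2 = w (ij.1 + a) then 1 else 0)

lemma ev_shift (w : ℤ → Fin d) (a : ℤ) (p : PP d) : ev w a (shiftP d p) = ev w (a + 1) p := by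
  show MvPolynomial.eval _ (MvPolynomial.rename _ p) = _
  rw [MvPolynomial.eval_rename]
  unfold ev
  congr 1
  congr 1
  funext ij
  simp only [Function.comp, Equiv.prodCongr_apply, Prod.map, Equiv.refl_apply,
    Equiv.coe_addRight]
  rw [show ij.1 + 1 + a = ij.1 + (a + 1) by ring]

lemma ev_gP (A : Fin d → Matrix (Fin D) (Fin D) ℂ) (w : ℤ → Fin d) (a : ℤ) :
    (ev w a).mapMatrix (gP A) = A (w a) := by
  unfold gP
  rw [map_sum]
  ext i k
  rw [Matrix.sum_apply]
  simp only [RingHom.mapMatrix_apply, Matrix.map_apply, Matrix.smul_apply, smul_eq_mul, map_mul]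
  have : ∀ j, ev w a (MvPolynomial.X ((0 : ℤ), j)) = if j = w a then 1 else 0 := by
    intro j
    unfold ev
    rw [MvPolynomial.eval_X]
    simp
  simp only [this]
  have h2 : ∀ c : ℂ, ev w a (MvPolynomial.C c) = c := by
    intro c
    unfold ev
    rw [MvPolynomial.eval_C]
  simp [h2]

lemma ev_twP (A : Fin d → Matrix (Fin D) (Fin D) ℂ) (w : ℤ → Fin d) (k : ℕ) :
    ∀ a : ℤ, (ev w a).mapMatrix (twP A k) = (List.ofFn fun i : Fin k => A (w (a + i))).prod := by
  induction k with
  | zero => intro a; simp [twP]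
  | succ k ih =>
    intro a
    show (ev w a).mapMatrix (gP A * (shiftP d).mapMatrix (twP A k)) = _
    rw [map_mul, ev_gP]
    have h1 : (ev w a).mapMatrix ((shiftP d).mapMatrix (twP A k)) =
        (ev w (a + 1)).mapMatrix (twP A k) := by
      ext i j
      exact ev_shift w a _
    rw [h1, ih (a + 1), List.ofFn_succ, List.prod_cons]
    congr 1
    · simp
    · congr 2
      funext i
      congr 2
      push_cast [Fin.val_succ]
      ring

lemma tw_ne (A : Fin d → Matrix (Fin D) (Fin D) ℂ) (hD : 1 ≤ D) {n₀ : ℕ} (hn₀ : 1 ≤ n₀)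
    (h : Submodule.span ℂ (Set.range A) ^ n₀ = ⊤) (k : ℕ) :
    tw (shiftK d).mapMatrix (gK A) k ≠ 0 := by
  rw [tw_eq]
  -- a nonzero product of length `k`
  have h1 : Submodule.span ℂ (Set.range A) ^ k ≠ ⊥ := by
    intro h0
    have h2 : Submodule.span ℂ (Set.range A) ^ (k + n₀) = ⊥ := by
      rw [pow_add, h0]
      exact Submodule.bot_mul _
    rw [Setup.top_of_le hn₀ h (by omega)] at h2
    have h3 : (1 : Matrix (Fin D) (Fin D) ℂ) ∈ (⊥ : Submodule ℂ _) := by rw [← h2]; trivial
    rw [Submodule.mem_bot] at h3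
    have := congrFun (congrFun h3 ⟨0, by omega⟩) ⟨0, by omega⟩
    simp at this
  have h4 : ∃ M ∈ (Set.range A) ^ k, M ≠ 0 := by
    by_contra hcon
    push Not at hcon
    apply h1
    rw [Submodule.span_pow, Submodule.span_eq_bot]
    exact hcon
  obtain ⟨M, hM, hM0⟩ := h4
  rw [Set.mem_pow] at hM
  obtain ⟨f, hf⟩ := hM
  have hk : 0 < k ∨ k = 0 := by omega
  rcases hk with hk | hk
  · choose w0 hw0 using fun i => (f i).2
    let w : ℤ → Fin d := fun i => w0 ⟨i.toNat % k, Nat.mod_lt _ hk⟩
    intro h0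
    have h5 : twP A k = 0 := by
      ext1 a b
      have := congrFun (congrFun h0 a) b
      have h6 : algebraMap (PP d) (KK d) (twP A k a b) = 0 := this
      have h8 : twP A k a b = 0 :=
        (IsFractionRing.injective (PP d) (KK d)) (h6.trans (map_zero _).symm)
      exact h8
    have h7 := ev_twP A w k 0
    rw [h5, map_zero] at h7
    apply hM0
    rw [← hf, h7]
    congr 2
    funext i
    rw [← hw0 i]
    congr 2
    ext
    simp only [zero_add, Int.toNat_natCast]
    exact (Nat.mod_eq_of_lt i.2).symm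
  · subst hk
    intro h0
    have := congrFun (congrFun h0 ⟨0, by omega⟩) ⟨0, by omega⟩
    simp [twP] at this

/-- The set-up for the generic matrix. -/
noncomputable def genSetup (A : Fin d → Matrix (Fin D) (Fin D) ℂ) (hD : 1 ≤ D) {n₀ : ℕ}
    (hn₀ : 1 ≤ n₀) (h : Submodule.span ℂ (Set.range A) ^ n₀ = ⊤) : Setup (KK d) D where
  σ := shiftK d
  B := bc ℂ (KK d) D '' Set.range A
  g := gK A
  fix := by
    rintro _ ⟨M, -, rfl⟩
    ext i j
    exact shiftK_C _
  hg := by
    rw [gK_eq]
    exact Submodule.sum_mem _ fun j _ => Submodule.smul_mem _ _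
      (Submodule.subset_span ⟨A j, ⟨j, rfl⟩, rfl⟩)
  n₀ := n₀
  hn₀ := hn₀
  prim := span_pow_bc_top h
  ne := tw_ne A hD hn₀ h

/-- **Growth theorem over `ℂ`.**  Here `m = 0` is only possible if the span of the matrices
contains an invertible matrix. -/
theorem growth (A : Fin d → Matrix (Fin D) (Fin D) ℂ) (hD : 1 ≤ D) {n₀ : ℕ}
    (hn₀ : 1 ≤ n₀) (h : Submodule.span ℂ (Set.range A) ^ n₀ = ⊤) :
    ∃ m r : ℕ, 1 ≤ r ∧ m + r ≤ D ∧
      (m = 0 → ∃ M ∈ Submodule.span ℂ (Set.range A), IsUnit M) ∧
      ∀ N, D * r + m + (D - r) ≤ N + 1 → Submodule.span ℂ (Set.range A) ^ N = ⊤ := by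
  obtain ⟨m, r, h1, h2, h3, h4⟩ := (genSetup A hD hn₀ h).main
  refine ⟨m, r, h1, h2, ?_, fun N hN => span_pow_top_of_bc (h4 N hN)⟩
  intro hm
  have hu : IsUnit (gK A) := h3 hm
  -- the determinant polynomial is nonzero, so some specialisation is invertible
  have hdet : (gP A).det ≠ 0 := by
    intro h0
    rw [Matrix.isUnit_iff_isUnit_det] at hu
    have h5 : (gK A).det = algebraMap (PP d) (KK d) (gP A).det := by
      unfold gK
      rw [RingHom.map_det]
    rw [h5, h0, map_zero] at hu
    exact not_isUnit_zero hu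
  obtain ⟨x, hx⟩ : ∃ x : ℤ × Fin d → ℂ, MvPolynomial.eval x (gP A).det ≠ 0 := by
    by_contra hcon
    push Not at hcon
    exact hdet (MvPolynomial.funext (by intro x; rw [hcon x, map_zero]))
  refine ⟨(MvPolynomial.eval x).mapMatrix (gP A), ?_, ?_⟩
  · have : (MvPolynomial.eval x).mapMatrix (gP A) = ∑ j, x (0, j) • A j := by
      unfold gP
      rw [map_sum]
      refine Finset.sum_congr rfl fun j _ => ?_
      ext a b
      simp
    rw [this]
    exact Submodule.sum_mem _ fun j _ => Submodule.smul_mem _ _ (Submodule.subset_span ⟨j, rfl⟩)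
  · rw [Matrix.isUnit_iff_isUnit_det, ← RingHom.map_det]
    exact isUnit_iff_ne_zero.mpr hx

end Generic

end Pool.Agent.MPSIndex
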