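import Pool.Agent.MPSIndex.Defs
import Pool.Agent.MPSIndex.Generic

/-!
# A pair of `D × D` matrices with injectivity index `D ^ 2 - D + 1`
-/

open Matrix Module
open scoped Pointwise

namespace Pool.Agent.MPSIndex

section NumberTheory

/-- `D² - 3D + 1` is not of the form `p (D-1) + q D`. -/
lemma frob {D p q : ℕ} (hD : 2 ≤ D) : p * (D - 1) + q * D + (D - 1) + D ≠ D * (D - 1) := by
  obtain ⟨c, rfl⟩ : ∃ c, D = c + 1 := ⟨D - 1, by omega⟩
  simp only [Nat.add_sub_cancel]
  intro h
  have h1 : (p + 1) * c + (q + 1) * (c + 1) = (c + 1) * c := by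
    rw [← h]; ring
  have hdvd : (c + 1) ∣ (p + 1) * c := by
    have h2 : (c + 1) ∣ (p + 1) * c + (q + 1) * (c + 1) := by rw [h1]; exact Dvd.intro _ rfl
    exact (Nat.dvd_add_left (Dvd.intro_left _ rfl)).mp h2
  have hcop : Nat.Coprime (c + 1) c := by simp
  have h3 : (c + 1) ∣ (p + 1) := hcop.dvd_of_dvd_mul_right hdvd
  have h4 : c + 1 ≤ p + 1 := Nat.le_of_dvd (by omega) h3
  have h5 : (c + 1) * c ≤ (p + 1) * c := Nat.mul_le_mul_right _ h4
  have h6 : 0 < (q + 1) * (c + 1) := by positivity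
  omega

/-- Every `n ≥ (D-1)(D-2)` is of the form `p (D-1) + q D`. -/
lemma conductor {D n : ℕ} (hD : 2 ≤ D) (hn : (D - 1) * (D - 2) ≤ n) :
    ∃ p q, n = p * (D - 1) + q * D := by
  obtain ⟨c, rfl⟩ : ∃ c, D = c + 2 := ⟨D - 2, by omega⟩
  simp only [Nat.add_sub_cancel, show c + 2 - 1 = c + 1 by omega] at hn ⊢
  have h1 := Nat.div_add_mod n (c + 1)
  have h2 := Nat.mod_lt n (show 0 < c + 1 by omega)
  set t := n / (c + 1)
  set u := n % (c + 1)
  have h3 : c ≤ t := by
    by_contra hlt
    rw [not_le] at hlt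
    have h4 : (c + 1) * t + (c + 1) ≤ (c + 1) * c := by
      calc (c + 1) * t + (c + 1) = (c + 1) * (t + 1) := by ring
        _ ≤ (c + 1) * c := Nat.mul_le_mul_left _ hlt
    omega
  refine ⟨t - u, u, ?_⟩
  have h5 : (t - u) * (c + 1) + u * (c + 1) = t * (c + 1) := by
    rw [← Nat.add_mul]
    congr 1
    omega
  calc n = (c + 1) * t + u := h1.symm
    _ = t * (c + 1) + u := by ring
    _ = (t - u) * (c + 1) + u * (c + 1) + u := by rw [h5]
    _ = (t - u) * (c + 1) + u * (c + 2) := by ring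

end NumberTheory

section Example

variable (D : ℕ)

/-- The nilpotent shift `e_i ↦ e_{i+1}`, `e_{D-1} ↦ 0`. -/
def shiftMat : Matrix (Fin D) (Fin D) ℂ := Matrix.of fun i j => if (i : ℕ) = j + 1 then 1 else 0

/-- `e_{D-2}, e_{D-1} ↦ e_0`, all the other basis vectors go to `0`. -/
def closeMat : Matrix (Fin D) (Fin D) ℂ :=
  Matrix.of fun i j => if (i : ℕ) = 0 ∧ D ≤ (j : ℕ) + 2 then 1 else 0

/-- The pair. -/
def pair : Fin 2 → Matrix (Fin D) (Fin D) ℂ := ![shiftMat D, closeMat D]

variable {D}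

/-- The row vector `e_{D-1-i}^*`. -/
def aa (i : ℕ) : Fin D → ℂ := fun j => if (j : ℕ) + i + 1 = D then 1 else 0

/-- The row vector `e_{D-2-i}^* + e_{D-1-i}^*`. -/
def bb (i : ℕ) : Fin D → ℂ := fun j => if (j : ℕ) + i + 2 = D ∨ (j : ℕ) + i + 1 = D then 1 else 0

lemma vecMul_shift (v : Fin D → ℂ) (j : Fin D) :
    (v ᵥ* shiftMat D) j = if h : (j : ℕ) + 1 < D then v ⟨j + 1, h⟩ else 0 := by
  simp only [Matrix.vecMul, dotProduct, shiftMat, Matrix.of_apply, mul_ite, mul_one, mul_zero]
  split_ifs with h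
  · rw [Finset.sum_eq_single (⟨j + 1, h⟩ : Fin D)]
    · simp
    · intro b _ hb
      rw [if_neg]
      intro h2
      exact hb (Fin.ext h2)
    · simp
  · apply Finset.sum_eq_zero
    intro b _
    rw [if_neg]
    have := b.2
    omega

lemma vecMul_close (v : Fin D → ℂ) (hD : 0 < D) (j : Fin D) :
    (v ᵥ* closeMat D) j = if D ≤ (j : ℕ) + 2 then v ⟨0, hD⟩ else 0 := by
  simp only [Matrix.vecMul, dotProduct, closeMat, Matrix.of_apply, mul_ite, mul_one, mul_zero]
  rw [Finset.sum_eq_single (⟨0, hD⟩ : Fin D)]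
  · simp
  · intro b _ hb
    rw [if_neg]
    rintro ⟨h2, -⟩
    exact hb (Fin.ext h2)
  · simp

lemma aa_shift (i : ℕ) : (aa i : Fin D → ℂ) ᵥ* shiftMat D = aa (i + 1) := by
  funext j
  rw [vecMul_shift]
  unfold aa
  simp only
  split_ifs <;> first | rfl | omega

lemma bb_shift (i : ℕ) : (bb i : Fin D → ℂ) ᵥ* shiftMat D = bb (i + 1) := by
  funext j
  rw [vecMul_shift]
  unfold bb
  simp only
  split_ifs <;> first | rfl | omega

lemma aa_close (hD : 0 < D) (i : ℕ) : (aa i : Fin D → ℂ) ᵥ* closeMat D =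
    if i + 1 = D then bb 0 else 0 := by
  funext j
  rw [vecMul_close _ hD]
  have := j.2
  by_cases h : i + 1 = D
  · rw [if_pos h]
    unfold aa bb
    simp only
    split_ifs <;> first | rfl | omega
  · rw [if_neg h]
    unfold aa
    simp only [Pi.zero_apply]
    split_ifs <;> first | rfl | omega

lemma bb_close (hD : 0 < D) (i : ℕ) : (bb i : Fin D → ℂ) ᵥ* closeMat D =
    if i + 2 = D ∨ i + 1 = D then bb 0 else 0 := by
  funext j
  rw [vecMul_close _ hD]
  have := j.2
  by_cases h : i + 2 = D ∨ i + 1 = D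
  · rw [if_pos h]
    unfold bb
    simp only
    split_ifs <;> first | rfl | omega
  · rw [if_neg h]
    unfold bb
    simp only [Pi.zero_apply]
    split_ifs <;> first | rfl | omega

/-- The row vectors reachable from `e_{D-1}^*`. -/
lemma reach (hD : 2 ≤ D) (k : ℕ) : ∀ M ∈ (Set.range (pair D)) ^ k,
    (aa 0 : Fin D → ℂ) ᵥ* M = 0 ∨ (aa 0 : Fin D → ℂ) ᵥ* M = aa k ∨
    ∃ i p q, (aa 0 : Fin D → ℂ) ᵥ* M = bb i ∧ k = D + (p * (D - 1) + q * D) + i := by
  induction k with
  | zero =>
    intro M hM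
    rw [pow_zero, Set.mem_one] at hM
    subst hM
    right; left
    simp
  | succ k ih =>
    intro M hM
    rw [pow_succ] at hM
    obtain ⟨M', hM', _, ⟨a, rfl⟩, rfl⟩ := hM
    show (aa 0 : Fin D → ℂ) ᵥ* (M' * pair D a) = 0 ∨ (aa 0 : Fin D → ℂ) ᵥ* (M' * pair D a) = _ ∨
      ∃ i p q, (aa 0 : Fin D → ℂ) ᵥ* (M' * pair D a) = bb i ∧ _
    rw [← Matrix.vecMul_vecMul]
    fin_cases a
    · show (_ ᵥ* shiftMat D = 0) ∨ (_ ᵥ* shiftMat D = _) ∨ ∃ i p q, _ ᵥ* shiftMat D = bb i ∧ _
      rcases ih M' hM' with h | h | ⟨i, p, q, h, hk⟩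
      · left; rw [h, Matrix.zero_vecMul]
      · right; left; rw [h, aa_shift]
      · right; right
        exact ⟨i + 1, p, q, by rw [h, bb_shift], by omega⟩
    · show (_ ᵥ* closeMat D = 0) ∨ (_ ᵥ* closeMat D = _) ∨ ∃ i p q, _ ᵥ* closeMat D = bb i ∧ _
      rcases ih M' hM' with h | h | ⟨i, p, q, h, hk⟩
      · left; rw [h, Matrix.zero_vecMul]
      · rw [h, aa_close (by omega)]
        by_cases hk : k + 1 = D
        · rw [if_pos hk]
          right; right
          exact ⟨0, 0, 0, rfl, by omega⟩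
        · rw [if_neg hk]
          left; rfl
      · rw [h, bb_close (by omega)]
        by_cases hi : i + 2 = D ∨ i + 1 = D
        · rw [if_pos hi]
          right; right
          rcases hi with hi | hi
          · refine ⟨0, p + 1, q, rfl, ?_⟩
            have : (p + 1) * (D - 1) = p * (D - 1) + (D - 1) := by ring
            omega
          · refine ⟨0, p, q + 1, rfl, ?_⟩
            have : (q + 1) * D = q * D + D := by ring
            omega
        · rw [if_neg hi]
          left; rfl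

/-- the alternating vector -/
def ww : Fin D → ℂ := fun j => (-1) ^ (j : ℕ)

lemma bb_ww (i : ℕ) (hi : i + 1 ≠ D) : (bb i : Fin D → ℂ) ⬝ᵥ ww = 0 := by
  by_cases h : i + 2 ≤ D
  · unfold dotProduct bb ww
    have h1 : ∀ j : Fin D, (if (j : ℕ) + i + 2 = D ∨ (j : ℕ) + i + 1 = D then (1 : ℂ) else 0) *
        (-1) ^ (j : ℕ) = (if j = (⟨D - 2 - i, by omega⟩ : Fin D) then (-1) ^ (j : ℕ) else 0) +
          (if j = (⟨D - 1 - i, by omega⟩ : Fin D) then (-1) ^ (j : ℕ) else 0) := by
      intro j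
      have hj := j.2
      simp only [Fin.ext_iff]
      split_ifs <;> first | omega | simp
    simp only [h1]
    rw [Finset.sum_add_distrib, Finset.sum_ite_eq', Finset.sum_ite_eq']
    simp only [Finset.mem_univ, if_true]
    rw [show D - 1 - i = (D - 2 - i) + 1 by omega, pow_succ]
    ring
  · have : (bb i : Fin D → ℂ) = 0 := by
      funext j
      unfold bb
      rw [if_neg (by omega)]
      rfl
    rw [this, zero_dotProduct]

lemma not_top (hD : 2 ≤ D) :
    Submodule.span ℂ (Set.range (pair D)) ^ (D * (D - 1)) ≠ ⊤ := by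
  intro htop
  let φ : Matrix (Fin D) (Fin D) ℂ →ₗ[ℂ] ℂ :=
    { toFun := fun M => ((aa 0 : Fin D → ℂ) ᵥ* M) ⬝ᵥ ww
      map_add' := fun M P => by rw [Matrix.vecMul_add, add_dotProduct]
      map_smul' := fun c M => by
        rw [Matrix.vecMul_smul, smul_dotProduct]; rfl }
  have h1 : Submodule.span ℂ (Set.range (pair D)) ^ (D * (D - 1)) ≤ LinearMap.ker φ := by
    rw [Submodule.span_pow, Submodule.span_le]
    intro M hM
    rw [SetLike.mem_coe, LinearMap.mem_ker]
    show ((aa 0 : Fin D → ℂ) ᵥ* M) ⬝ᵥ ww = 0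
    rcases reach hD _ M hM with h | h | ⟨i, p, q, h, hk⟩
    · rw [h, zero_dotProduct]
    · rw [h]
      have : (aa (D * (D - 1)) : Fin D → ℂ) = 0 := by
        funext j
        unfold aa
        have : D * 1 ≤ D * (D - 1) := Nat.mul_le_mul_left _ (by omega)
        rw [if_neg (by omega)]
        rfl
      rw [this, zero_dotProduct]
    · rw [h]
      apply bb_ww
      intro hi
      apply frob (p := p) (q := q) hD
      omega
  rw [htop, top_le_iff, LinearMap.ker_eq_top] at h1
  have h2 : φ 1 = 0 := by rw [h1]; rfl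
  have h3 : φ 1 = (aa 0 : Fin D → ℂ) ⬝ᵥ ww := by
    show ((aa 0 : Fin D → ℂ) ᵥ* 1) ⬝ᵥ ww = _
    rw [Matrix.vecMul_one]
  rw [h3] at h2
  unfold dotProduct aa ww at h2
  rw [Finset.sum_eq_single (⟨D - 1, by omega⟩ : Fin D)] at h2
  · simp only [add_zero] at h2
    rw [if_pos (by omega)] at h2
    simp at h2
  · intro b _ hb
    rw [if_neg, zero_mul]
    intro h4
    apply hb
    apply Fin.ext
    simp only
    omega
  · simp

/-- The matrix with row `i` equal to `v` and all the other rows zero. -/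
def rowMat (i : ℕ) (v : Fin D → ℂ) : Matrix (Fin D) (Fin D) ℂ :=
  Matrix.of fun r c => if (r : ℕ) = i then v c else 0

lemma rowMat_mul (i : ℕ) (v : Fin D → ℂ) (M : Matrix (Fin D) (Fin D) ℂ) :
    rowMat i v * M = rowMat i (v ᵥ* M) := by
  ext r c
  rw [Matrix.mul_apply]
  unfold rowMat
  simp only [Matrix.of_apply]
  split_ifs
  · rfl
  · simp

lemma shift_mul_rowMat (i : ℕ) (v : Fin D → ℂ) :
    shiftMat D * rowMat i v = rowMat (i + 1) v ∨ D ≤ i := by
  by_cases hi : D ≤ i
  · exact Or.inr hi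
  · left
    rw [not_le] at hi
    ext r c
    rw [Matrix.mul_apply, Finset.sum_eq_single (⟨i, hi⟩ : Fin D)]
    · unfold rowMat shiftMat
      simp
    · intro b _ hb
      unfold rowMat
      simp only [Matrix.of_apply]
      rw [if_neg, mul_zero]
      intro h
      exact hb (Fin.ext h)
    · simp

lemma closeMat_eq (hD : 0 < D) : closeMat D = rowMat 0 (bb 0) := by
  ext r c
  unfold closeMat rowMat bb
  have := c.2
  simp only [Matrix.of_apply]
  split_ifs <;> first | rfl | omega

lemma shift_mem : shiftMat D ∈ (Submodule.span ℂ (Set.range (pair D))) :=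
  Submodule.subset_span ⟨0, rfl⟩

lemma close_mem : closeMat D ∈ (Submodule.span ℂ (Set.range (pair D))) :=
  Submodule.subset_span ⟨1, rfl⟩

lemma mul_shift_pow {i j n : ℕ} (k : ℕ)
    (h : rowMat i (bb j) ∈ (Submodule.span ℂ (Set.range (pair D))) ^ n) :
    rowMat i (bb (j + k)) ∈ (Submodule.span ℂ (Set.range (pair D))) ^ (n + k) := by
  induction k with
  | zero => exact h
  | succ k ih =>
    have := Submodule.mul_mem_mul ih (shift_mem (D := D))
    rw [rowMat_mul, bb_shift, ← pow_succ] at this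
    exact this

lemma mul_close {i j n : ℕ} (hD : 0 < D) (hj : j + 2 = D ∨ j + 1 = D)
    (h : rowMat i (bb j) ∈ (Submodule.span ℂ (Set.range (pair D))) ^ n) :
    rowMat i (bb 0) ∈ (Submodule.span ℂ (Set.range (pair D))) ^ (n + 1) := by
  have := Submodule.mul_mem_mul h (close_mem (D := D))
  rw [rowMat_mul, bb_close hD, if_pos hj, ← pow_succ] at this
  exact this

lemma base_mem (hD : 2 ≤ D) (p q : ℕ) :
    rowMat 0 (bb 0) ∈ (Submodule.span ℂ (Set.range (pair D))) ^ (1 + (p * (D - 1) + q * D)) := by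
  induction p with
  | zero =>
    induction q with
    | zero =>
      simp only [zero_mul, add_zero, pow_one]
      rw [← closeMat_eq (by omega)]
      exact close_mem
    | succ q ih =>
      have := mul_close (by omega) (Or.inr (by omega)) (mul_shift_pow (D - 1) ih)
      have h2 : 1 + (0 * (D - 1) + q * D) + (D - 1) + 1 = 1 + (0 * (D - 1) + (q + 1) * D) := by
        have : (q + 1) * D = q * D + D := by ring
        omega
      rwa [h2] at this
  | succ p ih =>
    have := mul_close (by omega) (Or.inl (by omega)) (mul_shift_pow (D - 2) ih)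
    have h2 : 1 + (p * (D - 1) + q * D) + (D - 2) + 1 = 1 + ((p + 1) * (D - 1) + q * D) := by
      have : (p + 1) * (D - 1) = p * (D - 1) + (D - 1) := by ring
      omega
    rwa [h2] at this

lemma shift_pow_mul {j n : ℕ} (i : ℕ) (hi : i < D)
    (h : rowMat 0 (bb j) ∈ (Submodule.span ℂ (Set.range (pair D))) ^ n) :
    rowMat i (bb j) ∈ (Submodule.span ℂ (Set.range (pair D))) ^ (n + i) := by
  induction i with
  | zero => exact h
  | succ i ih =>
    have := Submodule.mul_mem_mul (shift_mem (D := D)) (ih (by omega))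
    rw [← pow_succ'] at this
    rcases shift_mul_rowMat (D := D) i (bb j) with h1 | h1
    · rw [h1] at this
      exact this
    · omega

lemma rowMat_mem (hD : 2 ≤ D) {i j : ℕ} (hi : i < D) (hj : j < D) :
    rowMat i (bb j) ∈ (Submodule.span ℂ (Set.range (pair D))) ^ (D * (D - 1) + 1) := by
  have h0 : D * (D - 1) = (D - 1) * (D - 2) + 2 * (D - 1) := by
    obtain ⟨c, rfl⟩ : ∃ c, D = c + 2 := ⟨D - 2, by omega⟩
    simp only [Nat.add_sub_cancel, show c + 2 - 1 = c + 1 by omega]
    ring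
  obtain ⟨p, q, hpq⟩ := conductor (n := D * (D - 1) - i - j) hD (by omega)
  have h1 := shift_pow_mul i hi (mul_shift_pow j (base_mem hD p q))
  rw [zero_add] at h1
  have h2 : 1 + (p * (D - 1) + q * D) + j + i = D * (D - 1) + 1 := by omega
  rwa [h2] at h1

/-- the row vector `e_c^*` -/
def ee (c : ℕ) : Fin D → ℂ := fun j => if (j : ℕ) = c then 1 else 0

lemma ee_mem (hD : 2 ≤ D) {i : ℕ} (hi : i < D) (c : ℕ) (hc : c < D) :
    rowMat i (ee c) ∈ (Submodule.span ℂ (Set.range (pair D))) ^ (D * (D - 1) + 1) := by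
  induction c with
  | zero =>
    have h1 := rowMat_mem hD hi (show D - 1 < D by omega)
    have h2 : (bb (D - 1) : Fin D → ℂ) = ee 0 := by
      funext j
      unfold bb ee
      have := j.2
      split_ifs <;> first | rfl | omega
    rwa [h2] at h1
  | succ c ih =>
    have h1 := rowMat_mem hD hi (show D - 2 - c < D by omega)
    have h2 := Submodule.sub_mem _ h1 (ih (by omega))
    have h3 : rowMat i (bb (D - 2 - c)) - rowMat i (ee c) =
        (rowMat i (ee (c + 1)) : Matrix (Fin D) (Fin D) ℂ) := by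
      ext r s
      have := s.2
      simp only [rowMat, bb, ee, Matrix.sub_apply, Matrix.of_apply]
      split_ifs <;> first | omega | simp
    rwa [h3] at h2

lemma top (hD : 2 ≤ D) :
    Submodule.span ℂ (Set.range (pair D)) ^ (D * (D - 1) + 1) = ⊤ := by
  apply top_of_single
  intro i c
  have := ee_mem hD i.2 c c.2
  convert this using 1
  ext r s
  simp only [rowMat, ee, Matrix.of_apply, Matrix.single_apply, Fin.ext_iff]
  split_ifs <;> first | rfl | omega

end Example

end Pool.Agent.MPSIndex
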