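import Pool.Agent.MPSIndex.Defs
import Pool.Agent.MPSIndex.Generic
import Pool.Agent.MPSIndex.Lower

/-!
# Bounds for the injectivity index of normal matrix product states
-/

open Matrix Module
open scoped Pointwise

namespace Pool.Agent.MPSIndex

variable {D d : ℕ}

lemma wordSpan_eq (A : Fin d → Matrix (Fin D) (Fin D) ℂ) (L : ℕ) :
    wordSpan A L = Submodule.span ℂ (Set.range A) ^ L := by
  rw [Submodule.span_pow]
  unfold wordSpan
  congr 1
  ext M
  rw [Set.mem_pow]
  constructor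
  · rintro ⟨i, rfl⟩
    exact ⟨fun k => ⟨A (i k), ⟨i k, rfl⟩⟩, rfl⟩
  · rintro ⟨f, hf⟩
    choose w hw using fun i => (f i).2
    refine ⟨w, ?_⟩
    rw [← hf]
    congr 2
    funext i
    exact (hw i).symm

/-- The index is at most `N` as soon as `S_N = ⊤`, `N ≥ 1`. -/
lemma injIndex_le {A : Fin d → Matrix (Fin D) (Fin D) ℂ} {N : ℕ} (hN : 1 ≤ N)
    (h : wordSpan A N = ⊤) : injIndex A ≤ N :=
  Nat.sInf_le ⟨hN, h⟩

lemma injIndex_spec {A : Fin d → Matrix (Fin D) (Fin D) ℂ} (h : IsNormal A) :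
    1 ≤ injIndex A ∧ wordSpan A (injIndex A) = ⊤ :=
  Nat.sInf_mem (s := {L : ℕ | 1 ≤ L ∧ wordSpan A L = ⊤}) h

lemma wordSpan_top_of_le {A : Fin d → Matrix (Fin D) (Fin D) ℂ} {n k : ℕ} (hn : 1 ≤ n)
    (h : wordSpan A n = ⊤) (hk : n ≤ k) : wordSpan A k = ⊤ := by
  rw [wordSpan_eq] at h ⊢
  exact Setup.top_of_le hn h hk

/-- General upper bound. -/
theorem index_le (hD : 2 ≤ D) {A : Fin d → Matrix (Fin D) (Fin D) ℂ} (h : IsNormal A) :
    injIndex A ≤ D ^ 2 - 1 := by
  obtain ⟨n₀, hn₀, h⟩ := h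
  rw [wordSpan_eq] at h
  obtain ⟨m, r, h1, h2, -, h4⟩ := growth A (by omega) hn₀ h
  have hDD : 2 * 2 ≤ D * D := Nat.mul_le_mul hD hD
  rw [pow_two]
  apply injIndex_le (by omega)
  rw [wordSpan_eq]
  apply h4
  obtain ⟨c, hc⟩ : ∃ c, D = r + c := ⟨D - r, by omega⟩
  have h5 : D * D = D * r + D * c := by rw [← Nat.mul_add, ← hc]
  have h6 : 2 * c ≤ D * c := Nat.mul_le_mul_right _ hD
  omega

/-- Arithmetic of the improved bound. -/
lemma improved_arith {m r N : ℕ} (hD : 2 ≤ D) (h2 : m + r ≤ D) (hr : r + 1 ≤ D)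
    (hN : N = D * D - D + 1) : D * r + m + (D - r) ≤ N + 1 := by
  obtain ⟨c, hc⟩ : ∃ c, D = r + 1 + c := ⟨D - r - 1, by omega⟩
  have h5 : D * D = D * r + D + D * c := by
    calc D * D = D * (r + 1 + c) := by rw [← hc]
      _ = D * r + D + D * c := by ring
  have h6 : 2 * c ≤ D * c := Nat.mul_le_mul_right _ hD
  omega

/-- Improved bound if the span contains no invertible matrix. -/
theorem index_le_of_no_unit (hD : 2 ≤ D) {A : Fin d → Matrix (Fin D) (Fin D) ℂ}
    (h : IsNormal A) (hu : ∀ M ∈ Submodule.span ℂ (Set.range A), ¬ IsUnit M) :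
    injIndex A ≤ D ^ 2 - D + 1 := by
  obtain ⟨n₀, hn₀, h⟩ := h
  rw [wordSpan_eq] at h
  obtain ⟨m, r, h1, h2, h3, h4⟩ := growth A (by omega) hn₀ h
  have hm : m ≠ 0 := by
    intro hm
    obtain ⟨M, hM, hMu⟩ := h3 hm
    exact hu M hM hMu
  apply injIndex_le (by omega)
  rw [wordSpan_eq]
  apply h4
  exact improved_arith hD h2 (by omega) (by rw [pow_two])

/-- Improved bound if the span contains a singular matrix that is not nilpotent. -/
theorem index_le_of_singular (hD : 2 ≤ D) {A : Fin d → Matrix (Fin D) (Fin D) ℂ}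
    (h : IsNormal A) {M : Matrix (Fin D) (Fin D) ℂ} (hM : M ∈ Submodule.span ℂ (Set.range A))
    (hu : ¬ IsUnit M) (hn : ¬ IsNilpotent M) :
    injIndex A ≤ D ^ 2 - D + 1 := by
  obtain ⟨n₀, hn₀, h⟩ := h
  rw [wordSpan_eq] at h
  have htw : ∀ k, tw (RingEquiv.refl ℂ).mapMatrix M k = M ^ k := by
    intro k
    induction k with
    | zero => simp [tw]
    | succ k ih =>
      show M * (RingEquiv.refl ℂ).mapMatrix (tw (RingEquiv.refl ℂ).mapMatrix M k) = _
      rw [ih, pow_succ']
      congr 1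
  let S : Setup ℂ D :=
    { σ := RingEquiv.refl ℂ
      B := Set.range A
      g := M
      fix := fun b _ => rfl
      hg := hM
      n₀ := n₀
      hn₀ := hn₀
      prim := h
      ne := by
        intro k h0
        rw [htw] at h0
        exact hn ⟨k, h0⟩ }
  obtain ⟨m, r, h1, h2, h3, h4⟩ := S.main
  have hm : m ≠ 0 := fun hm => hu (h3 hm)
  apply injIndex_le (by omega)
  rw [wordSpan_eq]
  apply h4
  exact improved_arith hD h2 (by omega) (by rw [pow_two])

/-- The pair `(N, X)` is normal with index `D² - D + 1`. -/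
theorem pair_index (hD : 2 ≤ D) :
    IsNormal (pair D) ∧ injIndex (pair D) = D ^ 2 - D + 1 := by
  have h0 : D ^ 2 - D = D * (D - 1) := by
    rw [pow_two, Nat.mul_sub, mul_one]
  rw [h0]
  have h1 : wordSpan (pair D) (D * (D - 1) + 1) = ⊤ := by
    rw [wordSpan_eq]; exact top hD
  have hn : IsNormal (pair D) := ⟨D * (D - 1) + 1, by omega, h1⟩
  refine ⟨hn, le_antisymm (injIndex_le (by omega) h1) ?_⟩
  by_contra hlt
  rw [not_le] at hlt
  obtain ⟨h2, h3⟩ := injIndex_spec hn
  have h4 := wordSpan_top_of_le h2 h3 (k := D * (D - 1)) (by omega)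
  rw [wordSpan_eq] at h4
  exact not_top hD h4

/-- Every index is bounded and the bound `D² - D + 1` is attained, so the maximum exists. -/
theorem isGreatest (hD : 2 ≤ D) : IsGreatest (indexSet D) (maxIndex D) ∧
    D ^ 2 - D + 1 ≤ maxIndex D ∧ maxIndex D ≤ D ^ 2 - 1 := by
  have hb : D ^ 2 - 1 ∈ upperBounds (indexSet D) := by
    rintro n ⟨d, -, A, hA, rfl⟩
    exact index_le hD hA
  have hmem : D ^ 2 - D + 1 ∈ indexSet D :=
    ⟨2, by norm_num, pair D, (pair_index hD).1, (pair_index hD).2⟩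
  have hne : (indexSet D).Nonempty := ⟨_, hmem⟩
  have h1 : maxIndex D ∈ indexSet D := Nat.sSup_mem hne ⟨_, hb⟩
  have h2 : maxIndex D ∈ upperBounds (indexSet D) := fun n hn => le_csSup ⟨_, hb⟩ hn
  exact ⟨⟨h1, h2⟩, h2 hmem, hb h1⟩

/-- The one-dimensional case. -/
theorem maxIndex_one : maxIndex 1 = 1 := by
  have h1 : indexSet 1 = {1} := by
    ext n
    rw [Set.mem_singleton_iff]
    constructor
    · rintro ⟨d, -, A, hA, rfl⟩
      obtain ⟨h1, h2⟩ := injIndex_spec hA
      apply le_antisymm _ h1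
      apply injIndex_le le_rfl
      by_contra hne
      -- the span of the matrices is zero
      have hbot : wordSpan A 1 = ⊥ := by
        rw [Submodule.eq_bot_iff]
        intro M hM
        by_contra hM0
        apply hne
        rw [eq_top_iff]
        rintro P -
        have h3 : M 0 0 ≠ 0 := by
          intro h4
          apply hM0
          ext i j
          rw [Subsingleton.elim i 0, Subsingleton.elim j 0, h4]
          rfl
        have h5 : P = (P 0 0 / M 0 0) • M := by
          ext i j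
          rw [Subsingleton.elim i 0, Subsingleton.elim j 0, Matrix.smul_apply, smul_eq_mul,
            div_mul_cancel₀ _ h3]
        rw [h5]
        exact Submodule.smul_mem _ _ hM
      rw [wordSpan_eq, pow_one] at hbot
      rw [wordSpan_eq, hbot] at h2
      have h6 : ∃ k, injIndex A = k + 1 := ⟨injIndex A - 1, by omega⟩
      obtain ⟨k, hk⟩ := h6
      rw [hk, pow_succ, Submodule.mul_bot] at h2
      have h7 : (1 : Matrix (Fin 1) (Fin 1) ℂ) ∈ (⊥ : Submodule ℂ _) := by rw [h2]; trivial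
      rw [Submodule.mem_bot] at h7
      exact one_ne_zero h7
    · rintro rfl
      have hsp : wordSpan (fun _ : Fin 1 => (1 : Matrix (Fin 1) (Fin 1) ℂ)) 1 = ⊤ := by
        rw [wordSpan_eq, pow_one, eq_top_iff]
        rintro P -
        have : P = P 0 0 • (1 : Matrix (Fin 1) (Fin 1) ℂ) := by
          ext i j
          rw [Subsingleton.elim i 0, Subsingleton.elim j 0]
          simp
        rw [this]
        exact Submodule.smul_mem _ _ (Submodule.subset_span ⟨0, rfl⟩)
      have hn : IsNormal (fun _ : Fin 1 => (1 : Matrix (Fin 1) (Fin 1) ℂ)) := ⟨1, le_rfl, hsp⟩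
      exact ⟨1, le_rfl, _, hn, le_antisymm (injIndex_le le_rfl hsp) (injIndex_spec hn).1⟩
  unfold maxIndex
  rw [h1]
  exact csSup_singleton 1

end Pool.Agent.MPSIndex
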